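import Pool.Agent.Helper24.PGN.Fin
import Pool.Agent.Helper55.UG.TateGQ

/-!
Project PGN (MP_b8862a_ag): Hodge structures `Λ² T (1)`, `T` of K3 type, with the group of similitudes.
-/

set_option linter.unusedSectionVars false

open Matrix

namespace MH

/-- isometries of determinant one are similitudes -/
theorem isGQ_of24 {n : Type*} [Fintype n] [DecidableEq n] {w : ℤ} {Q : Matrix n n ℚ} {g : GL n ℂ}
    (g1 : (g : Matrix n n ℂ)ᵀ * toC Q * (g : Matrix n n ℂ) = toC Q) (g2 : (g : Matrix n n ℂ).det = 1) :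
    IsGQ w Q g := by
  refine ⟨1, fun _ => rfl, ?_, fun _ => ?_⟩
  · rw [g1, one_pow, one_smul]
  · rw [g2, one_pow]

theorem sharp_K3_GQ24 (s h : ℕ) (hs : 3 ≤ s) (hh : 2 * h + s = s ^ 2 + 2) :
    ∃ (n : Type) (_ : Fintype n) (_ : DecidableEq n) (Q : Matrix n n ℚ) (P : ℤ → Matrix n n ℂ),
      IsHW 2 Q {0, 1, 2} P ∧
      (∀ A : Matrix n n ℚ, (∀ p, toC A * P p = P p * toC A) → ∃ c : ℚ, A = c • (1 : Matrix n n ℚ)) ∧
      (P 2).rank = s ∧ (P 1).rank = h ∧ (P 0).rank = s ∧ (∀ p, p ≠ 2 → p ≠ 1 → p ≠ 0 → P p = 0) ∧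
      ∃ g : GL n ℂ, IsGQ 2 Q g ∧ g ∉ MT {0, 1, 2} P := by
  obtain ⟨n, i1, i2, Q, P, H, hEnd, h2, h1, h0, hP, g, g1, g2, g3⟩ := sharp_K3_24 s h hs hh
  exact ⟨n, i1, i2, Q, P, H, hEnd, h2, h1, h0, hP, g, isGQ_of24 g1 g2, g3⟩

end MH
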