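import Pool.Agent.Helper24.PGN.Lam

/-!
Project PGN (MP_b8862a_ag): the commutant of the orthogonal Lie algebra on the second exterior power.
-/

set_option linter.unusedSectionVars false

open Matrix
open scoped Kronecker

namespace MH

section com

variable {k : ℕ} {R : Type*} [CommRing R]

/-- the action of the Lie algebra on the tensor square -/
abbrev dk24 (X : Matrix (Fin k) (Fin k) R) : Matrix (Fin k × Fin k) (Fin k × Fin k) R := X ⊗ₖ 1 + 1 ⊗ₖ X

/-- the inclusion of the exterior square into the tensor square -/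
def Bm24 (k : ℕ) (R : Type*) [CommRing R] : Matrix (Fin k × Fin k) (Pr24 k) R :=
  fun p x => (if p = (x.1.1, x.1.2) then 1 else 0) - (if p = (x.1.2, x.1.1) then 1 else 0)

theorem Bm24_sum (U : Fin k → Fin k → R) (h : ∀ a b, U b a = -U a b) (h0 : ∀ a, U a a = 0) (a b : Fin k) :
    ∑ x : Pr24 k, Bm24 k R (a, b) x * U x.1.1 x.1.2 = U a b := by
  unfold Bm24
  simp only [sub_mul, ite_mul, one_mul, zero_mul, Finset.sum_sub_distrib]
  rcases lt_trichotomy a b with hab | hab | hab
  · rw [Finset.sum_eq_single (⟨(a, b), hab⟩ : Pr24 k)]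
    · rw [if_pos rfl, Finset.sum_eq_zero, sub_zero]
      intro x _
      rw [if_neg]
      intro h1
      rw [Prod.mk.injEq] at h1
      have h2 := x.2
      rw [← h1.1, ← h1.2] at h2
      exact absurd h2 (not_lt.2 hab.le)
    · intro x _ hx
      rw [if_neg]
      intro h1
      exact hx (Subtype.ext h1.symm)
    · intro h1
      exact absurd (Finset.mem_univ _) h1
  · subst hab
    rw [Finset.sum_eq_zero, Finset.sum_eq_zero, h0, sub_zero]
    · intro x _
      rw [if_neg]
      intro h1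
      rw [Prod.mk.injEq] at h1
      have h2 := x.2
      rw [← h1.1, ← h1.2] at h2
      exact absurd h2 (lt_irrefl _)
    · intro x _
      rw [if_neg]
      intro h1
      rw [Prod.mk.injEq] at h1
      have h2 := x.2
      rw [← h1.1, ← h1.2] at h2
      exact absurd h2 (lt_irrefl _)
  · rw [Finset.sum_eq_zero, Finset.sum_eq_single (⟨(b, a), hab⟩ : Pr24 k)]
    · rw [if_pos rfl, zero_sub]
      exact (h b a).symm
    · intro x _ hx
      rw [if_neg]
      intro h1
      rw [Prod.mk.injEq] at h1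
      exact hx (Subtype.ext (Prod.ext h1.2.symm h1.1.symm))
    · intro h1
      exact absurd (Finset.mem_univ _) h1
    · intro x _
      rw [if_neg]
      intro h1
      rw [Prod.mk.injEq] at h1
      have h2 := x.2
      rw [← h1.1, ← h1.2] at h2
      exact absurd h2 (not_lt.2 hab.le)

theorem mul_Bm24 (T : Matrix (Fin k × Fin k) (Fin k × Fin k) R) (p : Fin k × Fin k) (y : Pr24 k) :
    (T * Bm24 k R) p y = T p (y.1.1, y.1.2) - T p (y.1.2, y.1.1) := by
  rw [Matrix.mul_apply]
  unfold Bm24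
  simp only [mul_sub, mul_ite, mul_one, mul_zero, Finset.sum_sub_distrib, Finset.sum_ite_eq', Finset.mem_univ, if_true]

theorem sw_Bm24 {T : Matrix (Fin k × Fin k) (Fin k × Fin k) R} (h : Sw24 T) : T * Bm24 k R = Bm24 k R * cc24 T := by
  ext ⟨a, b⟩ y
  rw [mul_Bm24, Matrix.mul_apply]
  refine (Bm24_sum (fun a b => T (a, b) (y.1.1, y.1.2) - T (a, b) (y.1.2, y.1.1)) ?_ ?_ a b).symm
  · intro a b
    rw [h a b y.1.2 y.1.1, h a b y.1.1 y.1.2]
    ring
  · intro a
    rw [h a a y.1.1 y.1.2, sub_self]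

/-- the operator on the tensor square -/
def ex24 (A : Matrix (Pr24 k) (Pr24 k) R) : Matrix (Fin k × Fin k) (Fin k × Fin k) R := Bm24 k R * A * (Bm24 k R)ᵀ

theorem ex24_comm {A : Matrix (Pr24 k) (Pr24 k) R} {X : Matrix (Fin k) (Fin k) R} (h : A * dr24 X = dr24 X * A) :
    ex24 A * dk24 X = dk24 X * ex24 A := by
  have e1 : dk24 X * Bm24 k R = Bm24 k R * dr24 X := sw_Bm24 (sw_dr24 X)
  have e2 : (Bm24 k R)ᵀ * dk24 X = dr24 X * (Bm24 k R)ᵀ := by
    have e3 : dk24 Xᵀ * Bm24 k R = Bm24 k R * dr24 Xᵀ := sw_Bm24 (sw_dr24 Xᵀ)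
    have e4 := congrArg Matrix.transpose e3
    rw [Matrix.transpose_mul, Matrix.transpose_mul, dr24_transpose, Matrix.transpose_transpose] at e4
    rw [← e4]
    congr 1
    ext p q
    simp only [Matrix.add_apply, Matrix.kroneckerMap_apply, Matrix.transpose_apply, Matrix.one_apply, eq_comm]
  unfold ex24
  calc Bm24 k R * A * (Bm24 k R)ᵀ * dk24 X = Bm24 k R * A * ((Bm24 k R)ᵀ * dk24 X) := by
        rw [Matrix.mul_assoc]
    _ = Bm24 k R * (A * dr24 X) * (Bm24 k R)ᵀ := by rw [e2]; simp only [Matrix.mul_assoc]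
    _ = Bm24 k R * dr24 X * A * (Bm24 k R)ᵀ := by rw [h]; simp only [Matrix.mul_assoc]
    _ = _ := by rw [← e1]; simp only [Matrix.mul_assoc]

theorem ex24_apply (A : Matrix (Pr24 k) (Pr24 k) R) (x y : Pr24 k) :
    ex24 A (x.1.1, x.1.2) (y.1.1, y.1.2) = A x y := by
  have hB : ∀ x z : Pr24 k, Bm24 k R (x.1.1, x.1.2) z = if x = z then 1 else 0 := by
    intro x z
    unfold Bm24
    have h1 : (x.1.1, x.1.2) ≠ (z.1.2, z.1.1) := by
      intro h1
      rw [Prod.mk.injEq] at h1
      have h2 := x.2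
      have h3 := z.2
      rw [h1.1, h1.2] at h2
      exact absurd h2 (not_lt.2 h3.le)
    rw [if_neg h1, sub_zero]
    refine if_congr ?_ rfl rfl
    constructor
    · intro h2
      exact Subtype.ext h2
    · intro h2
      rw [h2]
  unfold ex24
  rw [Matrix.mul_apply]
  simp only [Matrix.mul_apply, Matrix.transpose_apply, hB, ite_mul, one_mul, zero_mul, mul_ite, mul_one, mul_zero,
    Finset.sum_ite_eq, Finset.mem_univ, if_true]

theorem ex24_swap_left (A : Matrix (Pr24 k) (Pr24 k) R) (a b : Fin k) (q : Fin k × Fin k) :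
    ex24 A (b, a) q = -ex24 A (a, b) q := by
  have hB : ∀ z : Pr24 k, Bm24 k R (b, a) z = -Bm24 k R (a, b) z := by
    intro z
    unfold Bm24
    simp only [Prod.mk.injEq]
    rw [neg_sub, if_congr (and_comm (a := b = z.1.1)) rfl rfl, if_congr (and_comm (a := b = z.1.2)) rfl rfl]
  unfold ex24
  rw [Matrix.mul_assoc, Matrix.mul_apply, Matrix.mul_apply, ← Finset.sum_neg_distrib]
  refine Finset.sum_congr rfl fun z _ => ?_
  rw [hB, neg_mul]

theorem ex24_swap_right (A : Matrix (Pr24 k) (Pr24 k) R) (i j : Fin k) (p : Fin k × Fin k) :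
    ex24 A p (j, i) = -ex24 A p (i, j) := by
  have hB : ∀ z : Pr24 k, Bm24 k R (j, i) z = -Bm24 k R (i, j) z := by
    intro z
    unfold Bm24
    simp only [Prod.mk.injEq]
    rw [neg_sub, if_congr (and_comm (a := j = z.1.1)) rfl rfl, if_congr (and_comm (a := j = z.1.2)) rfl rfl]
  unfold ex24
  rw [Matrix.mul_apply, Matrix.mul_apply, ← Finset.sum_neg_distrib]
  refine Finset.sum_congr rfl fun z _ => ?_
  rw [Matrix.transpose_apply, Matrix.transpose_apply, hB, mul_neg]

theorem left_apply24 (X : Matrix (Fin k) (Fin k) R) (M : Matrix (Fin k × Fin k) (Fin k × Fin k) R) (a b : Fin k)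
    (q : Fin k × Fin k) : (dk24 X * M) (a, b) q = ∑ c, X a c * M (c, b) q + ∑ c, X b c * M (a, c) q := by
  rw [Matrix.mul_apply, Fintype.sum_prod_type]
  simp only [Matrix.add_apply, Matrix.kroneckerMap_apply, add_mul, Finset.sum_add_distrib]
  congr 1
  · refine Finset.sum_congr rfl fun c _ => ?_
    simp [Matrix.one_apply]
  · rw [Finset.sum_comm]
    refine Finset.sum_congr rfl fun c _ => ?_
    simp [Matrix.one_apply]

theorem right_apply24 (X : Matrix (Fin k) (Fin k) R) (M : Matrix (Fin k × Fin k) (Fin k × Fin k) R) (i j : Fin k)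
    (p : Fin k × Fin k) : (M * dk24 X) p (i, j) = ∑ c, M p (c, j) * X c i + ∑ c, M p (i, c) * X c j := by
  rw [Matrix.mul_apply, Fintype.sum_prod_type]
  simp only [Matrix.add_apply, Matrix.kroneckerMap_apply, mul_add, Finset.sum_add_distrib]
  congr 1
  · refine Finset.sum_congr rfl fun c _ => ?_
    simp [Matrix.one_apply]
  · rw [Finset.sum_comm]
    refine Finset.sum_congr rfl fun c _ => ?_
    simp [Matrix.one_apply]

end com

/-- the generator of the orthogonal Lie algebra of the diagonal form `q` for two coordinates -/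
def w24 {k : ℕ} {R : Type*} [CommRing R] (q : Fin k → R) (v u : Fin k → R) : Matrix (Fin k) (Fin k) R :=
  fun a b => (v a * u b - u a * v b) * q b

section scalar

variable {k : ℕ} [NeZero k] {F : Type*} [Field F] {q : Fin k → F} {A : Matrix (Pr24 k) (Pr24 k) F}

private theorem rel24 (hA : ∀ d : Fin k, d ≠ 0 → A * dr24 (w24 q (Pi.single 0 1) (Pi.single d 1)) =
      dr24 (w24 q (Pi.single 0 1) (Pi.single d 1)) * A) {d : Fin k} (hd : d ≠ 0) (a b i j : Fin k) :
    (if a = 0 then q d * ex24 A (d, b) (i, j) else 0) - (if a = d then q 0 * ex24 A (0, b) (i, j) else 0) +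
      ((if b = 0 then q d * ex24 A (a, d) (i, j) else 0) - (if b = d then q 0 * ex24 A (a, 0) (i, j) else 0)) =
    (if i = d then q d * ex24 A (a, b) (0, j) else 0) - (if i = 0 then q 0 * ex24 A (a, b) (d, j) else 0) +
      ((if j = d then q d * ex24 A (a, b) (i, 0) else 0) - (if j = 0 then q 0 * ex24 A (a, b) (i, d) else 0)) := by
  have e1 := congrFun (congrFun (ex24_comm (hA d hd)) (a, b)) (i, j)
  rw [left_apply24, right_apply24] at e1
  have e2 : ∀ (c : Fin k) (f : Fin k → F), ∑ c', w24 q (Pi.single 0 1) (Pi.single d 1) c c' * f c' =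
      (if c = 0 then q d * f d else 0) - (if c = d then q 0 * f 0 else 0) := by
    intro c f
    simp only [w24, Pi.single_apply, sub_mul, Finset.sum_sub_distrib]
    congr 1
    · rw [Finset.sum_eq_single d]
      · by_cases h : c = 0
        · simp [h]
        · simp [h]
      · intro x _ hx
        simp [hx]
      · intro h
        exact absurd (Finset.mem_univ _) h
    · rw [Finset.sum_eq_single 0]
      · by_cases h : c = d
        · simp [h]
        · simp [h]
      · intro x _ hx
        simp [hx]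
      · intro h
        exact absurd (Finset.mem_univ _) h
  have e3 : ∀ (c : Fin k) (f : Fin k → F), ∑ c', f c' * w24 q (Pi.single 0 1) (Pi.single d 1) c' c =
      (if c = d then q d * f 0 else 0) - (if c = 0 then q 0 * f d else 0) := by
    intro c f
    simp only [w24, Pi.single_apply, sub_mul, mul_sub, Finset.sum_sub_distrib]
    congr 1
    · rw [Finset.sum_eq_single 0]
      · by_cases h : c = d
        · subst h; simp [mul_comm]
        · simp [h]
      · intro x _ hx
        simp [hx]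
      · intro h
        exact absurd (Finset.mem_univ _) h
    · rw [Finset.sum_eq_single d]
      · by_cases h : c = 0
        · subst h; simp [mul_comm]
        · simp [h]
      · intro x _ hx
        simp [hx]
      · intro h
        exact absurd (Finset.mem_univ _) h
  rw [e2 a (fun c => ex24 A (c, b) (i, j)), e2 b (fun c => ex24 A (a, c) (i, j)),
    e3 i (fun c => ex24 A (a, b) (c, j)), e3 j (fun c => ex24 A (a, b) (i, c))] at e1
  exact e1.symm

/-- five coordinates: one avoids four given ones -/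
private theorem avoid24 (hk : 5 ≤ k) (x y z t : Fin k) : ∃ d : Fin k, d ≠ x ∧ d ≠ y ∧ d ≠ z ∧ d ≠ t := by
  by_contra hcon
  push Not at hcon
  have h1 : (Finset.univ : Finset (Fin k)) ⊆ {x, y, z, t} := by
    intro d _
    simp only [Finset.mem_insert, Finset.mem_singleton]
    by_contra h2
    push Not at h2
    exact h2.2.2.2 (hcon d h2.1 h2.2.1 h2.2.2.1)
  have h2 := Finset.card_le_card h1
  rw [Finset.card_univ, Fintype.card_fin] at h2
  have h3 : ({x, y, z, t} : Finset (Fin k)).card ≤ 4 := Finset.card_le_four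
  omega

/-- **The commutant is the field of scalars.** -/
theorem scalar24 (hk : 5 ≤ k) (h2 : (2 : F) ≠ 0) (hq : ∀ a, q a ≠ 0)
    (hA : ∀ d : Fin k, d ≠ 0 → A * dr24 (w24 q (Pi.single 0 1) (Pi.single d 1)) =
      dr24 (w24 q (Pi.single 0 1) (Pi.single d 1)) * A) : ∃ c : F, A = c • (1 : Matrix (Pr24 k) (Pr24 k) F) := by
  have sl : ∀ a b i j, ex24 A (b, a) (i, j) = -ex24 A (a, b) (i, j) := fun a b i j => ex24_swap_left A a b (i, j)
  have sr : ∀ a b i j, ex24 A (a, b) (j, i) = -ex24 A (a, b) (i, j) := fun a b i j => ex24_swap_right A i j (a, b)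
  have s0 : ∀ a i j, ex24 A (a, a) (i, j) = 0 := by
    intro a i j
    have e1 := sl a a i j
    have e2 : (2 : F) * ex24 A (a, a) (i, j) = 0 := by linear_combination e1
    exact (mul_eq_zero.1 e2).resolve_left h2
  -- step 1
  have S1 : ∀ b i j, i ≠ 0 → j ≠ 0 → ex24 A (0, b) (i, j) = 0 := by
    intro b i j hi hj
    by_cases hb : b = 0
    · rw [hb]
      exact s0 0 i j
    obtain ⟨d, d0, d1, d2, d3⟩ := avoid24 hk 0 i j b
    have e1 := rel24 hA d0 d b i j
    rw [if_neg d0, if_pos rfl, if_neg hb, if_neg (Ne.symm d3), if_neg (Ne.symm d1), if_neg hi, if_neg (Ne.symm d2),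
      if_neg hj] at e1
    have e2 : q 0 * ex24 A (0, b) (i, j) = 0 := by linear_combination -e1
    exact (mul_eq_zero.1 e2).resolve_left (hq 0)
  have S1' : ∀ b i j, i ≠ 0 → j ≠ 0 → ex24 A (b, 0) (i, j) = 0 := by
    intro b i j hi hj
    rw [sl 0 b i j, S1 b i j hi hj, neg_zero]
  -- step 2
  have S2 : ∀ a b i j, i ≠ 0 → j ≠ 0 → a ≠ i → a ≠ j → ex24 A (a, b) (i, j) = 0 := by
    intro a b i j hi hj hai haj
    by_cases ha : a = 0
    · rw [ha]
      exact S1 b i j hi hj
    by_cases hb : b = 0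
    · rw [hb]
      exact S1' a i j hi hj
    by_cases hab : b = a
    · rw [hab]
      exact s0 a i j
    have e1 := rel24 hA ha 0 b i j
    rw [if_pos rfl, if_neg (Ne.symm ha), if_neg hb, if_neg hab, if_neg (Ne.symm hai), if_neg hi, if_neg (Ne.symm haj),
      if_neg hj] at e1
    have e2 : q a * ex24 A (a, b) (i, j) = 0 := by linear_combination e1
    exact (mul_eq_zero.1 e2).resolve_left (hq a)
  have S2' : ∀ a b i j, i ≠ 0 → j ≠ 0 → b ≠ i → b ≠ j → ex24 A (a, b) (i, j) = 0 := by
    intro a b i j hi hj hbi hbj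
    rw [sl b a i j, S2 b a i j hi hj hbi hbj, neg_zero]
  -- step 3
  have S3 : ∀ d j, d ≠ 0 → j ≠ 0 → d ≠ j → ∀ a b, ex24 A (a, b) (0, j) =
      (if a = 0 then ex24 A (d, b) (d, j) else 0) + (if b = 0 then ex24 A (a, d) (d, j) else 0) := by
    intro d j hd hj hdj a b
    have e1 := rel24 hA hd a b d j
    rw [if_pos (rfl : d = d), if_neg hd, if_neg (Ne.symm hdj), if_neg hj, S1 b d j hd hj, S1' a d j hd hj] at e1
    simp only [mul_zero, ite_self, sub_zero, add_zero] at e1
    have e2 : q d * (ex24 A (a, b) (0, j) - ((if a = 0 then ex24 A (d, b) (d, j) else 0) +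
        (if b = 0 then ex24 A (a, d) (d, j) else 0))) = 0 := by
      rw [mul_sub, mul_add, mul_ite, mul_ite, mul_zero, ← e1, sub_self]
    exact sub_eq_zero.1 ((mul_eq_zero.1 e2).resolve_left (hq d))
  have S3' : ∀ d j, d ≠ 0 → j ≠ 0 → d ≠ j → ex24 A (0, j) (0, j) = ex24 A (d, j) (d, j) := by
    intro d j hd hj hdj
    rw [S3 d j hd hj hdj, if_pos rfl, if_neg hj, add_zero]
  -- all the scalars are equal
  have S4 : ∀ d j, d ≠ 0 → j ≠ 0 → ex24 A (0, j) (0, j) = ex24 A (0, d) (0, d) := by
    intro d j hd hj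
    by_cases hdj : d = j
    · rw [hdj]
    rw [S3' d j hd hj hdj, S3' j d hj hd (Ne.symm hdj), sl j d d j, sr j d j d, neg_neg]
  obtain ⟨o, ho, -, -, -⟩ := avoid24 hk 0 0 0 0
  refine ⟨ex24 A (0, o) (0, o), ?_⟩
  ext x y
  rw [← ex24_apply A x y, Matrix.smul_apply, Matrix.one_apply, smul_eq_mul]
  have hx := x.2
  have hy := y.2
  have x20 : x.1.2 ≠ 0 := by
    intro h3
    rw [h3] at hx
    exact absurd hx (Fin.not_lt_zero _)
  have y20 : y.1.2 ≠ 0 := by
    intro h3
    rw [h3] at hy
    exact absurd hy (Fin.not_lt_zero _)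
  by_cases hxy : x = y
  · subst hxy
    rw [if_pos rfl, mul_one]
    by_cases x10 : x.1.1 = 0
    · rw [x10]
      exact S4 o x.1.2 ho x20
    · rw [← S3' x.1.1 x.1.2 x10 x20 (ne_of_lt hx)]
      exact S4 o x.1.2 ho x20
  · rw [if_neg hxy, mul_zero]
    by_cases y10 : y.1.1 = 0
    · rw [y10]
      obtain ⟨d, d0, d1, d2, -⟩ := avoid24 hk 0 y.1.2 x.1.2 0
      rw [S3 d y.1.2 d0 y20 d1, if_neg x20, add_zero]
      split_ifs with h3
      · refine S2' d x.1.2 d y.1.2 d0 y20 (Ne.symm d2) ?_
        intro h4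
        exact hxy (Subtype.ext (Prod.ext (h3.trans y10.symm) h4))
      · rfl
    · by_cases h3 : x.1.1 ≠ y.1.1 ∧ x.1.1 ≠ y.1.2
      · exact S2 _ _ _ _ y10 y20 h3.1 h3.2
      by_cases h4 : x.1.2 ≠ y.1.1 ∧ x.1.2 ≠ y.1.2
      · exact S2' _ _ _ _ y10 y20 h4.1 h4.2
      exfalso
      rw [not_and_or, not_not, not_not] at h3 h4
      rcases h3 with h3 | h3
      · rcases h4 with h4 | h4
        · rw [h3, h4] at hx
          exact lt_irrefl _ hx
        · exact hxy (Subtype.ext (Prod.ext h3 h4))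
      · rcases h4 with h4 | h4
        · rw [h3, h4] at hx
          exact absurd hx (not_lt.2 hy.le)
        · rw [h3, h4] at hx
          exact lt_irrefl _ hx

end scalar

end MH
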