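import Pool.Agent.Helper21.MH.Hodge
import Pool.Agent.Helper14.GH.HW4

/-!
Project PGN (MP_b8862a_ag): Hodge structures of weight two given by one operator.
-/

set_option linter.unusedSectionVars false

open Matrix

namespace MH

variable {n : Type*} [Fintype n] [DecidableEq n]

/-- the projections of the Hodge structure of weight two with the operator `H` (eigenvalues 1, 0, -1) -/
noncomputable def PH24 (H : Matrix n n ℂ) (p : ℤ) : Matrix n n ℂ :=
  if p = 2 then (1 / 2 : ℂ) • (H * H + H) else if p = 0 then (1 / 2 : ℂ) • (H * H - H) else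
    if p = 1 then 1 - H * H else 0

theorem PH24_two (H : Matrix n n ℂ) : PH24 H 2 = (1 / 2 : ℂ) • (H * H + H) := rfl

theorem PH24_zero (H : Matrix n n ℂ) : PH24 H 0 = (1 / 2 : ℂ) • (H * H - H) := rfl

theorem PH24_one (H : Matrix n n ℂ) : PH24 H 1 = 1 - H * H := rfl

theorem PH24_ne (H : Matrix n n ℂ) {p : ℤ} (h2 : p ≠ 2) (h1 : p ≠ 1) (h0 : p ≠ 0) : PH24 H p = 0 := by
  unfold PH24
  rw [if_neg h2, if_neg h0, if_neg h1]

private theorem cases24 (p : ℤ) : p = 2 ∨ p = 0 ∨ p = 1 ∨ (p ≠ 2 ∧ p ≠ 1 ∧ p ≠ 0) := by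
  omega

theorem PH24_mul {H : Matrix n n ℂ} (h3 : H * H * H = H) (p q : ℤ) :
    PH24 H p * PH24 H q = if p = q then PH24 H p else 0 := by
  have e1 : H * (H * H) = H := by rw [← mul_assoc, h3]
  have e2 : H * H * (H * H) = H * H := by rw [← mul_assoc, h3]
  have a22 : (H * H + H) * (H * H + H) = (2 : ℂ) • (H * H + H) := by
    rw [mul_add, add_mul, add_mul, e2, e1, h3, two_smul]
    abel
  have a20 : (H * H + H) * (H * H - H) = 0 := by
    rw [mul_sub, add_mul, add_mul, e2, e1, h3]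
    abel
  have a02 : (H * H - H) * (H * H + H) = 0 := by
    rw [mul_add, sub_mul, sub_mul, e2, e1, h3]
    abel
  have a00 : (H * H - H) * (H * H - H) = (2 : ℂ) • (H * H - H) := by
    rw [mul_sub, sub_mul, sub_mul, e2, e1, h3, two_smul]
    abel
  have a11 : (1 - H * H) * (1 - H * H) = 1 - H * H := by
    rw [mul_sub, sub_mul, sub_mul, e2, one_mul, mul_one, one_mul]
    abel
  have a12 : (1 - H * H) * (H * H + H) = 0 := by
    rw [sub_mul, mul_add, mul_add, e2, h3, one_mul, one_mul]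
    abel
  have a10 : (1 - H * H) * (H * H - H) = 0 := by
    rw [sub_mul, mul_sub, mul_sub, e2, h3, one_mul, one_mul]
    abel
  have a21 : (H * H + H) * (1 - H * H) = 0 := by
    rw [mul_sub, add_mul, add_mul, e2, e1, mul_one, mul_one]
    abel
  have a01 : (H * H - H) * (1 - H * H) = 0 := by
    rw [mul_sub, sub_mul, sub_mul, e2, e1, mul_one, mul_one]
    abel
  rcases cases24 p with rfl | rfl | rfl | ⟨p2, p1, p0⟩
  · rcases cases24 q with rfl | rfl | rfl | ⟨q2, q1, q0⟩
    · rw [if_pos rfl, PH24_two, smul_mul_smul_comm, a22, smul_smul]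
      norm_num
    · rw [if_neg (by norm_num), PH24_two, PH24_zero, smul_mul_smul_comm, a20, smul_zero]
    · rw [if_neg (by norm_num), PH24_two, PH24_one, smul_mul_assoc, a21, smul_zero]
    · rw [if_neg (Ne.symm q2), PH24_ne H q2 q1 q0, mul_zero]
  · rcases cases24 q with rfl | rfl | rfl | ⟨q2, q1, q0⟩
    · rw [if_neg (by norm_num), PH24_two, PH24_zero, smul_mul_smul_comm, a02, smul_zero]
    · rw [if_pos rfl, PH24_zero, smul_mul_smul_comm, a00, smul_smul]
      norm_num
    · rw [if_neg (by norm_num), PH24_zero, PH24_one, smul_mul_assoc, a01, smul_zero]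
    · rw [if_neg (Ne.symm q0), PH24_ne H q2 q1 q0, mul_zero]
  · rcases cases24 q with rfl | rfl | rfl | ⟨q2, q1, q0⟩
    · rw [if_neg (by norm_num), PH24_two, PH24_one, mul_smul_comm, a12, smul_zero]
    · rw [if_neg (by norm_num), PH24_zero, PH24_one, mul_smul_comm, a10, smul_zero]
    · rw [if_pos rfl, PH24_one, a11]
    · rw [if_neg (Ne.symm q1), PH24_ne H q2 q1 q0, mul_zero]
  · rw [PH24_ne H p2 p1 p0, zero_mul, ite_self]

/-- the sum of a function over the three degrees -/
private theorem sum3_24 {M : Type*} [AddCommMonoid M] (f : ℤ → M) :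
    ∑ p ∈ ({2, 1, 0} : Finset ℤ), f p = f 2 + (f 1 + f 0) := by
  rw [Finset.sum_insert (by decide), Finset.sum_insert (by decide), Finset.sum_singleton]

theorem PH24_sum (H : Matrix n n ℂ) : ∑ p ∈ ({2, 1, 0} : Finset ℤ), PH24 H p = 1 := by
  rw [sum3_24, PH24_two, PH24_one, PH24_zero, smul_add, smul_sub]
  have e1 : H * H = (1 / 2 : ℂ) • (H * H) + (1 / 2 : ℂ) • (H * H) := by
    rw [← add_smul]
    norm_num
  conv_lhs => enter [2, 1]; rw [e1]
  abel

theorem PH24_idm {H : Matrix n n ℂ} (h3 : H * H * H = H) : Idm {2, 1, 0} (PH24 H) :=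
  ⟨PH24_mul h3, PH24_sum H⟩

theorem PH24_grade (H : Matrix n n ℂ) : ∑ p ∈ ({2, 1, 0} : Finset ℤ), (p : ℂ) • PH24 H p = 1 + H := by
  rw [sum3_24, PH24_two, PH24_one, PH24_zero]
  push_cast
  rw [one_smul, zero_smul, add_zero, smul_smul, show (2 : ℂ) * (1 / 2) = 1 by norm_num, one_smul]
  abel

/-- Hodge structures of weight two given by one operator -/
theorem isHW_PH24 {Q : Matrix n n ℚ} {H : Matrix n n ℂ} (h3 : H * H * H = H) (hc : H.map (starRingEnd ℂ) = -H)
    (hQ : Qᵀ = Q) (hQH : Hᵀ * toC Q = -(toC Q * H))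
    (hpos : ∀ v : n → ℂ, v ≠ 0 → 0 < (v ⬝ᵥ (toC Q *ᵥ ((1 - (2 : ℂ) • (H * H)) *ᵥ star v))).re) :
    IsHW 2 Q {2, 1, 0} (PH24 H) := by
  have hHH : (H * H).map (starRingEnd ℂ) = H * H := by
    rw [Matrix.map_mul, hc, neg_mul_neg]
  have h12 : (starRingEnd ℂ) (1 / 2 : ℂ) = 1 / 2 := by
    rw [show (1 / 2 : ℂ) = ((1 / 2 : ℝ) : ℂ) by push_cast; rfl, Complex.conj_ofReal]
  have hrefl : ∀ p, (PH24 H p).map (starRingEnd ℂ) = PH24 H (2 - p) := by
    intro p
    rcases cases24 p with rfl | rfl | rfl | ⟨p2, p1, p0⟩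
    · rw [show (2 : ℤ) - 2 = 0 by norm_num, PH24_two, PH24_zero]
      ext i j
      have e1 := congrFun (congrFun hHH i) j
      have e2 := congrFun (congrFun hc i) j
      simp only [Matrix.map_apply, Matrix.smul_apply, Matrix.add_apply, Matrix.sub_apply, Matrix.neg_apply,
        smul_eq_mul, map_mul, map_add] at e1 e2 ⊢
      rw [h12, e1, e2]
      ring
    · rw [show (2 : ℤ) - 0 = 2 by norm_num, PH24_two, PH24_zero]
      ext i j
      have e1 := congrFun (congrFun hHH i) j
      have e2 := congrFun (congrFun hc i) j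
      simp only [Matrix.map_apply, Matrix.smul_apply, Matrix.add_apply, Matrix.sub_apply, Matrix.neg_apply,
        smul_eq_mul, map_mul, map_sub] at e1 e2 ⊢
      rw [h12, e1, e2]
      ring
    · rw [show (2 : ℤ) - 1 = 1 by norm_num, PH24_one]
      ext i j
      have e1 := congrFun (congrFun hHH i) j
      simp only [Matrix.map_apply, Matrix.sub_apply, map_sub] at e1 ⊢
      rw [e1, Matrix.one_apply]
      split_ifs <;> simp
    · rw [PH24_ne H p2 p1 p0, PH24_ne H (by omega) (by omega) (by omega)]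
      ext i j
      simp
  have htr : ∀ p, (PH24 H p)ᵀ * toC Q = toC Q * PH24 H (2 - p) := by
    have e1 : (H * H)ᵀ * toC Q = toC Q * (H * H) := by
      rw [Matrix.transpose_mul, mul_assoc, hQH, mul_neg, ← mul_assoc, hQH, neg_mul, neg_neg, mul_assoc]
    intro p
    rcases cases24 p with rfl | rfl | rfl | ⟨p2, p1, p0⟩
    · rw [show (2 : ℤ) - 2 = 0 by norm_num, PH24_two, PH24_zero, Matrix.transpose_smul, Matrix.transpose_add,
        smul_mul_assoc, add_mul, e1, hQH, mul_smul_comm, mul_sub]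
      rfl
    · rw [show (2 : ℤ) - 0 = 2 by norm_num, PH24_two, PH24_zero, Matrix.transpose_smul, Matrix.transpose_sub,
        smul_mul_assoc, sub_mul, e1, hQH, mul_smul_comm, mul_add, sub_neg_eq_add]
    · rw [show (2 : ℤ) - 1 = 1 by norm_num, PH24_one, Matrix.transpose_sub, sub_mul, e1, Matrix.transpose_one,
        one_mul, mul_sub, mul_one]
    · rw [PH24_ne H p2 p1 p0, PH24_ne H (by omega) (by omega) (by omega), Matrix.transpose_zero, zero_mul, mul_zero]
  refine ⟨PH24_mul h3, ?_, PH24_sum H, hrefl, ?_, ?_, ?_⟩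
  · intro p hp
    simp only [Finset.mem_insert, Finset.mem_singleton, not_or] at hp
    exact PH24_ne H hp.1 hp.2.1 hp.2.2
  · rw [hQ]
    norm_num
  · intro p q hpq
    rw [htr, mul_assoc, PH24_mul h3, if_neg (by omega), mul_zero]
  · intro p v hv hv0
    have h4 := hpos v hv0
    have key : ∀ c : ℝ, (H * H) *ᵥ star v = ((c : ℂ)) • star v →
        (v ⬝ᵥ (toC Q *ᵥ ((1 - (2 : ℂ) • (H * H)) *ᵥ star v))) =
          ((1 - 2 * c : ℝ) : ℂ) * (v ⬝ᵥ (toC Q *ᵥ star v)) := by
      intro c hcv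
      rw [Matrix.sub_mulVec, Matrix.one_mulVec, Matrix.smul_mulVec, hcv, smul_smul]
      have : star v - (2 * (c : ℂ)) • star v = ((1 - 2 * c : ℝ) : ℂ) • star v := by
        push_cast
        rw [sub_smul, one_smul]
      rw [this, Matrix.mulVec_smul, dotProduct_smul, smul_eq_mul]
    have hstar : ∀ M : Matrix n n ℂ, M *ᵥ star v = star ((M.map (starRingEnd ℂ)) *ᵥ v) := by
      intro M
      funext i
      simp only [Matrix.mulVec, dotProduct, Pi.star_apply, star_sum, star_mul', Matrix.map_apply]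
      refine Finset.sum_congr rfl fun j _ => ?_
      rw [starRingEnd_apply, star_star]
    have hw : ∀ c : ℝ, (H * H) *ᵥ v = (c : ℂ) • v → (H * H) *ᵥ star v = (c : ℂ) • star v := by
      intro c hcv
      rw [hstar, hHH, hcv]
      funext i
      simp
    rcases cases24 p with rfl | rfl | rfl | ⟨p2, p1, p0⟩
    · have h5 : (H * H) *ᵥ v = ((1 : ℝ) : ℂ) • v := by
        rw [← hv, Matrix.mulVec_mulVec]
        have e1 : H * H * PH24 H 2 = PH24 H 2 := by
          rw [PH24_two, mul_smul_comm, mul_add, ← mul_assoc (H * H), h3]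
        rw [e1]
        simp
      rw [key 1 (hw 1 h5)] at h4
      have e2 : (Complex.I ^ (2 * 2 - 2 : ℤ) : ℂ) = ((1 - 2 * 1 : ℝ) : ℂ) := by
        rw [show (2 * 2 - 2 : ℤ) = ((2 : ℕ) : ℤ) by norm_num, zpow_natCast, Complex.I_sq]
        push_cast
        norm_num
      rw [e2]
      exact h4
    · have h5 : (H * H) *ᵥ v = ((1 : ℝ) : ℂ) • v := by
        rw [← hv, Matrix.mulVec_mulVec]
        have e1 : H * H * PH24 H 0 = PH24 H 0 := by
          rw [PH24_zero, mul_smul_comm, mul_sub, ← mul_assoc (H * H), h3]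
        rw [e1]
        simp
      rw [key 1 (hw 1 h5)] at h4
      have e2 : (Complex.I ^ (2 * 0 - 2 : ℤ) : ℂ) = ((1 - 2 * 1 : ℝ) : ℂ) := by
        rw [show (2 * 0 - 2 : ℤ) = -((2 : ℕ) : ℤ) by norm_num, _root_.zpow_neg, zpow_natCast, Complex.I_sq]
        push_cast
        norm_num
      rw [e2]
      exact h4
    · have h5 : (H * H) *ᵥ v = ((0 : ℝ) : ℂ) • v := by
        rw [← hv, Matrix.mulVec_mulVec]
        have e1 : H * H * PH24 H 1 = 0 := by
          rw [PH24_one, mul_sub, mul_one, ← mul_assoc (H * H), h3, sub_self]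
        rw [e1]
        simp
      rw [key 0 (hw 0 h5)] at h4
      have e2 : (Complex.I ^ (2 * 1 - 2 : ℤ) : ℂ) = ((1 - 2 * 0 : ℝ) : ℂ) := by
        rw [show (2 * 1 - 2 : ℤ) = 0 by norm_num, zpow_zero]
        push_cast
        norm_num
      rw [e2]
      exact h4
    · exfalso
      rw [PH24_ne H p2 p1 p0, Matrix.zero_mulVec] at hv
      exact hv0 hv.symm

/-- the ranks of the pieces -/
theorem PH24_ranks {H : Matrix n n ℂ} (h3 : H * H * H = H) (ht : H.trace = 0) {s h : ℕ}
    (ht2 : (H * H).trace = 2 * s) (hn : Fintype.card n = 2 * s + h) :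
    (PH24 H 2).rank = s ∧ (PH24 H 1).rank = h := by
  have hPP : ∀ p, PH24 H p * PH24 H p = PH24 H p := fun p => by rw [PH24_mul h3, if_pos rfl]
  constructor
  · have e1 := trace_eq_rank (hPP 2)
    rw [PH24_two, Matrix.trace_smul, Matrix.trace_add, ht, ht2, add_zero, smul_eq_mul, ← PH24_two] at e1
    have e2 : ((PH24 H 2).rank : ℂ) = (s : ℂ) := by
      rw [← e1]
      ring
    exact_mod_cast e2
  · have e1 := trace_eq_rank (hPP 1)
    rw [PH24_one, Matrix.trace_sub, ht2, Matrix.trace_one, hn, ← PH24_one] at e1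
    have e2 : ((PH24 H 1).rank : ℂ) = (h : ℂ) := by
      rw [← e1]
      push_cast
      ring
    exact_mod_cast e2

/-- a rational matrix commutes with the projections if and only if it commutes with the operator -/
theorem PH24_comm {H : Matrix n n ℂ} {A : Matrix n n ℂ} (h : ∀ p, A * PH24 H p = PH24 H p * A) : A * H = H * A := by
  have e1 : H = PH24 H 2 - PH24 H 0 := by
    rw [PH24_two, PH24_zero, ← smul_sub, show H * H + H - (H * H - H) = (2 : ℂ) • H by rw [two_smul]; abel, smul_smul]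
    norm_num
  rw [e1, mul_sub, sub_mul, h, h]

end MH
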