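import Pool.Agent.Helper24.PGN.Main

/-!
Project PGN (MP_b8862a_ag): Hodge structures `Λ² T (1)`, `T` of K3 type: the theorem.
-/

set_option linter.unusedSectionVars false

open Matrix

namespace MH

section main

variable {s : ℕ}

/-- the vector of the reflection -/
noncomputable def uu24 (z : Fin s → ℝ) : Fin (s + 2) → ℂ :=
  Matrix.vecCons 0 (Matrix.vecCons 1 fun j => (z j : ℂ))

theorem uu24_zero (z : Fin s → ℝ) : uu24 z 0 = 0 := rfl

theorem uu24_one (z : Fin s → ℝ) : uu24 z 1 = 1 := rfl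

theorem uu24_succ (z : Fin s → ℝ) (j : Fin s) : uu24 z j.succ.succ = z j := rfl

theorem qv24_succ (s : ℕ) (R : Type*) [CommRing R] (j : Fin s) : qv24 s R j.succ.succ = 1 := by
  unfold qv24
  rw [if_neg (by simp)]

/-- the value of the form -/
noncomputable def nn24 (z : Fin s → ℝ) : ℝ := -1 + ∑ j, z j * z j

theorem nn24_eq (z : Fin s → ℝ) : ∑ a, qv24 s ℂ a * uu24 z a * uu24 z a = (nn24 z : ℂ) := by
  rw [Fin.sum_univ_succ, Fin.sum_univ_succ]
  have e1 : ∀ j : Fin s, qv24 s ℂ j.succ.succ * uu24 z j.succ.succ * uu24 z j.succ.succ = (z j : ℂ) * z j := by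
    intro j
    rw [qv24_succ, uu24_succ, one_mul]
  rw [Finset.sum_congr rfl fun j _ => e1 j]
  have e2 : uu24 z (Fin.succ 0) = 1 := rfl
  have e3 : qv24 s ℂ (Fin.succ 0) = -1 := qv24_one s
  rw [uu24_zero, e2, e3]
  unfold nn24
  push_cast
  ring

/-- the reflection -/
noncomputable def gg24 (z : Fin s → ℝ) : Matrix (Fin (s + 2)) (Fin (s + 2)) ℂ :=
  rf24 (qv24 s ℂ) (uu24 z) (2 / (nn24 z : ℂ))

theorem gg24_sq {z : Fin s → ℝ} (hz : nn24 z ≠ 0) : gg24 z * gg24 z = 1 := by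
  refine rf24_sq ?_
  rw [nn24_eq]
  have : (nn24 z : ℂ) ≠ 0 := by exact_mod_cast hz
  field_simp

theorem uu24_conj (z : Fin s → ℝ) (a : Fin (s + 2)) : (starRingEnd ℂ) (uu24 z a) = uu24 z a := by
  refine Fin.cases ?_ (fun b => ?_) a
  · rw [uu24_zero, map_zero]
  · refine Fin.cases ?_ (fun j => ?_) b
    · have e2 : uu24 z (Fin.succ 0) = 1 := rfl
      rw [e2, map_one]
    · rw [uu24_succ, Complex.conj_ofReal]

theorem gg24_conj (z : Fin s → ℝ) : (gg24 z).map (starRingEnd ℂ) = gg24 z := by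
  ext a b
  rw [Matrix.map_apply]
  unfold gg24 rf24
  rw [map_sub, map_mul, map_mul, map_mul, uu24_conj, uu24_conj, qv24_map, map_div₀, Complex.conj_ofReal]
  congr 1
  · rw [Matrix.one_apply]
    split_ifs <;> simp
  · rw [show (2 : ℂ) = ((2 : ℝ) : ℂ) by push_cast; rfl, Complex.conj_ofReal]

theorem gg24_zero (z : Fin s → ℝ) : gg24 z *ᵥ (Pi.single 0 1) = Pi.single 0 1 := by
  funext a
  rw [Matrix.mulVec_single_one]
  change gg24 z a 0 = _
  unfold gg24 rf24
  rw [uu24_zero, mul_zero, mul_zero, mul_zero, sub_zero, Matrix.one_apply, Pi.single_apply]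

theorem gg24_one (z : Fin s → ℝ) :
    gg24 z *ᵥ (Pi.single 1 1) = Pi.single 1 1 + (2 / (nn24 z : ℂ)) • uu24 z := by
  funext a
  rw [Matrix.mulVec_single_one]
  change gg24 z a 1 = _
  unfold gg24 rf24
  rw [uu24_one, qv24_one, Pi.add_apply, Pi.smul_apply, smul_eq_mul, Matrix.one_apply, Pi.single_apply]
  ring

/-- the operator -/
noncomputable def HH24 (z : Fin s → ℝ) : Matrix (Pr24 (s + 2)) (Pr24 (s + 2)) ℂ :=
  rho24 (gg24 z) * H024 s * rho24 (gg24 z)

theorem HH24_eq {z : Fin s → ℝ} (hz : nn24 z ≠ 0) : HH24 z =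
    dr24 (Complex.I • w24 (qv24 s ℂ) (Pi.single 0 1) (Pi.single 1 1 + (2 / (nn24 z : ℂ)) • uu24 z)) := by
  unfold HH24 H024 j24
  rw [rho24_conj (gg24_sq hz), mul_smul_comm, smul_mul_assoc]
  have e1 : gg24 z * w24 (qv24 s ℂ) (Pi.single 0 1) (Pi.single 1 1) * gg24 z =
      w24 (qv24 s ℂ) (gg24 z *ᵥ Pi.single 0 1) (gg24 z *ᵥ Pi.single 1 1) := rf24_conj _ _
  rw [e1, gg24_zero, gg24_one]

theorem rho_sq24 {z : Fin s → ℝ} (hz : nn24 z ≠ 0) : rho24 (gg24 z) * rho24 (gg24 z) = 1 := by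
  rw [rho24_mul, gg24_sq hz, rho24_one]

theorem HH24_sq {z : Fin s → ℝ} (hz : nn24 z ≠ 0) :
    HH24 z * HH24 z = rho24 (gg24 z) * (H024 s * H024 s) * rho24 (gg24 z) := by
  unfold HH24
  calc rho24 (gg24 z) * H024 s * rho24 (gg24 z) * (rho24 (gg24 z) * H024 s * rho24 (gg24 z)) =
      rho24 (gg24 z) * H024 s * (rho24 (gg24 z) * rho24 (gg24 z)) * H024 s * rho24 (gg24 z) := by
        simp only [mul_assoc]
    _ = _ := by rw [rho_sq24 hz, mul_one]; simp only [mul_assoc]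

theorem HH24_cube {z : Fin s → ℝ} (hz : nn24 z ≠ 0) : HH24 z * HH24 z * HH24 z = HH24 z := by
  rw [HH24_sq hz]
  unfold HH24
  calc rho24 (gg24 z) * (H024 s * H024 s) * rho24 (gg24 z) * (rho24 (gg24 z) * H024 s * rho24 (gg24 z)) =
      rho24 (gg24 z) * (H024 s * H024 s) * (rho24 (gg24 z) * rho24 (gg24 z)) * H024 s * rho24 (gg24 z) := by
        simp only [mul_assoc]
    _ = rho24 (gg24 z) * (H024 s * H024 s * H024 s) * rho24 (gg24 z) := by
        rw [rho_sq24 hz, mul_one]; simp only [mul_assoc]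
    _ = _ := by rw [H024_cube]

theorem rho_conj24 (z : Fin s → ℝ) : (rho24 (gg24 z)).map (starRingEnd ℂ) = rho24 (gg24 z) := by
  rw [rho24_map, gg24_conj]

theorem HH24_conj (z : Fin s → ℝ) : (HH24 z).map (starRingEnd ℂ) = -HH24 z := by
  have e1 : (H024 s).map (starRingEnd ℂ) = -H024 s := by
    unfold H024
    rw [dr24_smul]
    ext x y
    rw [Matrix.map_apply, Matrix.neg_apply, Matrix.smul_apply, smul_eq_mul, map_mul, Complex.conj_I]
    have e2 := congrFun (congrFun (dr24_map (starRingEnd ℂ) (j24 s ℂ)) x) y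
    rw [Matrix.map_apply] at e2
    have e3 : (j24 s ℂ).map (starRingEnd ℂ) = j24 s ℂ := by
      ext a b
      rw [Matrix.map_apply, j24_apply, map_sub]
      congr 1 <;> split_ifs <;> simp
    rw [e2, e3, neg_mul]
  unfold HH24
  rw [Matrix.map_mul, Matrix.map_mul, rho_conj24, e1, mul_neg, neg_mul]

theorem HH24_skew {z : Fin s → ℝ} (hz : nn24 z ≠ 0) : (HH24 z)ᵀ * toC (Q24 s) = -(toC (Q24 s) * HH24 z) := by
  rw [HH24_eq hz, toC_Q24]
  refine dr24_skew ?_
  rw [Matrix.transpose_smul, smul_mul_assoc, w24_skew, mul_smul_comm, smul_neg]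

/-- the group preserves the form -/
theorem rho_form24 (z : Fin s → ℝ) :
    toC (Q24 s) * rho24 (gg24 z) = (rho24 (gg24 z))ᵀ * toC (Q24 s) := by
  rw [toC_Q24, rho24_transpose, rho24_mul, rho24_mul]
  congr 1
  exact (rf24_form _ _ _).symm

theorem HH24_pos {z : Fin s → ℝ} (hz : nn24 z ≠ 0) (v : Pr24 (s + 2) → ℂ) (hv : v ≠ 0) :
    0 < (v ⬝ᵥ (toC (Q24 s) *ᵥ ((1 - (2 : ℂ) • (HH24 z * HH24 z)) *ᵥ star v))).re := by
  set M := rho24 (gg24 z) with hM
  have hMM : M * M = 1 := rho_sq24 hz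
  have e1 : toC (Q24 s) * (1 - (2 : ℂ) • (HH24 z * HH24 z)) = Mᵀ * M := by
    have e2 : (1 : Matrix (Pr24 (s + 2)) (Pr24 (s + 2)) ℂ) - (2 : ℂ) • (HH24 z * HH24 z) =
        M * (1 - (2 : ℂ) • (H024 s * H024 s)) * M := by
      rw [HH24_sq hz, mul_sub, sub_mul, mul_one, hMM, mul_smul_comm, smul_mul_assoc]
    rw [e2, ← mul_assoc, ← mul_assoc, rho_form24, mul_assoc Mᵀ, Q24_H024, mul_one]
  rw [Matrix.mulVec_mulVec, e1, ← Matrix.mulVec_mulVec, Matrix.dotProduct_mulVec, Matrix.vecMul_transpose]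
  have e3 : M *ᵥ star v = star (M *ᵥ v) := by
    funext i
    simp only [Matrix.mulVec, dotProduct, Pi.star_apply, star_sum, star_mul']
    refine Finset.sum_congr rfl fun j _ => ?_
    have e4 := congrFun (congrFun (rho_conj24 z) i) j
    rw [Matrix.map_apply, starRingEnd_apply] at e4
    rw [← hM] at e4
    rw [e4]
  rw [e3]
  have hw : M *ᵥ v ≠ 0 := by
    intro h
    apply hv
    have h1 : M *ᵥ (M *ᵥ v) = v := by rw [Matrix.mulVec_mulVec, hMM, Matrix.one_mulVec]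
    rw [← h1, h, Matrix.mulVec_zero]
  obtain ⟨i, hi⟩ := Function.ne_iff.1 hw
  have e5 : (M *ᵥ v ⬝ᵥ star (M *ᵥ v)).re = ∑ i, Complex.normSq ((M *ᵥ v) i) := by
    rw [dotProduct, Complex.re_sum]
    refine Finset.sum_congr rfl fun i _ => ?_
    rw [Pi.star_apply, ← starRingEnd_apply, Complex.mul_conj, Complex.ofReal_re]
  rw [e5]
  refine lt_of_lt_of_le (Complex.normSq_pos.2 hi) ?_
  exact Finset.single_le_sum (f := fun i => Complex.normSq ((M *ᵥ v) i)) (fun j _ => Complex.normSq_nonneg _)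
    (Finset.mem_univ i)

theorem HH24_trace {z : Fin s → ℝ} (hz : nn24 z ≠ 0) : (HH24 z).trace = 0 := by
  rw [HH24_eq hz, Matrix.trace]
  refine Finset.sum_eq_zero fun x _ => ?_
  rw [Matrix.diag_apply, dr24_apply]
  have h1 : x.1.1 ≠ x.1.2 := ne_of_lt x.2
  rw [Matrix.one_apply_eq, Matrix.one_apply_eq, Matrix.one_apply_ne h1, Matrix.one_apply_ne (Ne.symm h1)]
  simp only [Matrix.smul_apply, w24, smul_eq_mul]
  ring

theorem HH24_trace_sq {z : Fin s → ℝ} (hz : nn24 z ≠ 0) : (HH24 z * HH24 z).trace = 2 * s := by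
  rw [HH24_sq hz, Matrix.trace_mul_comm, ← mul_assoc, rho_sq24 hz, one_mul, H024_sq, Matrix.trace_diagonal, sum_dl24]

/-- the endomorphisms -/
theorem HH24_end (hs : 3 ≤ s) {z : Fin s → ℝ} (hz : nn24 z ≠ 0)
    (hg : ∀ (c0 : ℚ) (c : Fin s → ℚ), (c0 : ℝ) * (1 + ∑ j, z j * z j) + ∑ j, (c j : ℝ) * z j = 0 → c0 = 0 ∧ ∀ j, c j = 0)
    {A : Matrix (Pr24 (s + 2)) (Pr24 (s + 2)) ℚ} (hA : toC A * HH24 z = HH24 z * toC A) :
    ∃ c : ℚ, A = c • (1 : Matrix (Pr24 (s + 2)) (Pr24 (s + 2)) ℚ) := by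
  have hzC : (nn24 z : ℂ) ≠ 0 := by exact_mod_cast hz
  set K : Fin (s + 2) → Matrix (Pr24 (s + 2)) (Pr24 (s + 2)) ℚ := fun a =>
    A * dr24 (w24 (qv24 s ℚ) (Pi.single 0 1) (Pi.single a 1)) -
      dr24 (w24 (qv24 s ℚ) (Pi.single 0 1) (Pi.single a 1)) * A with hK
  have hKC : ∀ a, (K a).map (algebraMap ℚ ℂ) =
      toC A * dr24 (w24 (qv24 s ℂ) (Pi.single 0 1) (Pi.single a 1)) -
        dr24 (w24 (qv24 s ℂ) (Pi.single 0 1) (Pi.single a 1)) * toC A := by
    intro a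
    have e1 : (dr24 (w24 (qv24 s ℚ) (Pi.single 0 1) (Pi.single a 1))).map (algebraMap ℚ ℂ) =
        dr24 (w24 (qv24 s ℂ) (Pi.single 0 1) (Pi.single a 1)) := by
      rw [dr24_map, w24_map]
      congr 2
      · funext b
        exact qv24_map s (algebraMap ℚ ℂ) b
      · funext b
        rw [Pi.single_apply, Pi.single_apply]
        split_ifs <;> simp
      · funext b
        rw [Pi.single_apply, Pi.single_apply]
        split_ifs <;> simp
    rw [hK]
    dsimp only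
    rw [← e1]
    ext x y
    have e2 := congrFun (congrFun (Matrix.map_mul (L := A)
      (M := dr24 (w24 (qv24 s ℚ) (Pi.single 0 1) (Pi.single a 1))) (f := algebraMap ℚ ℂ)) x) y
    have e3 := congrFun (congrFun (Matrix.map_mul (L := dr24 (w24 (qv24 s ℚ) (Pi.single 0 1) (Pi.single a 1)))
      (M := A) (f := algebraMap ℚ ℂ)) x) y
    rw [Matrix.map_apply] at e2 e3
    rw [Matrix.map_apply, Matrix.sub_apply, map_sub, e2, e3]
    rfl
  have h1 : ((nn24 z + 2 : ℝ) : ℂ) • (K 1).map (algebraMap ℚ ℂ) +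
      ∑ j : Fin s, (2 * (z j : ℂ)) • (K j.succ.succ).map (algebraMap ℚ ℂ) = 0 := by
    have e1 : HH24 z = Complex.I • (dr24 (w24 (qv24 s ℂ) (Pi.single 0 1) (Pi.single 1 1)) +
        (2 / (nn24 z : ℂ)) • ∑ a, uu24 z a • dr24 (w24 (qv24 s ℂ) (Pi.single 0 1) (Pi.single a 1))) := by
      rw [HH24_eq hz, dr24_smul, w24_add, dr24_add, w24_smul, dr24_smul]
      congr 3
      rw [w24_expand]
      have e2 : ∀ (t : Finset (Fin (s + 2))) (f : Fin (s + 2) → Matrix (Fin (s + 2)) (Fin (s + 2)) ℂ),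
          dr24 (∑ a ∈ t, f a) = ∑ a ∈ t, dr24 (f a) := by
        intro t f
        classical
        induction t using Finset.induction_on with
        | empty =>
          rw [Finset.sum_empty, Finset.sum_empty]
          have e3 := dr24_sub (0 : Matrix (Fin (s + 2)) (Fin (s + 2)) ℂ) 0
          rwa [sub_zero, sub_self] at e3
        | insert a t ha ih => rw [Finset.sum_insert ha, Finset.sum_insert ha, dr24_add, ih]
      rw [e2]
      exact Finset.sum_congr rfl fun a _ => dr24_smul _ _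
    have e2 : toC A * (dr24 (w24 (qv24 s ℂ) (Pi.single 0 1) (Pi.single 1 1)) +
        (2 / (nn24 z : ℂ)) • ∑ a, uu24 z a • dr24 (w24 (qv24 s ℂ) (Pi.single 0 1) (Pi.single a 1))) -
        (dr24 (w24 (qv24 s ℂ) (Pi.single 0 1) (Pi.single 1 1)) +
        (2 / (nn24 z : ℂ)) • ∑ a, uu24 z a • dr24 (w24 (qv24 s ℂ) (Pi.single 0 1) (Pi.single a 1))) * toC A = 0 := by
      rw [e1, mul_smul_comm, smul_mul_assoc] at hA
      exact sub_eq_zero.2 (smul_right_injective _ Complex.I_ne_zero hA)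
    rw [mul_add, add_mul, mul_smul_comm, smul_mul_assoc, Finset.mul_sum, Finset.sum_mul] at e2
    simp only [mul_smul_comm, smul_mul_assoc] at e2
    have e3 : (K 1).map (algebraMap ℚ ℂ) + (2 / (nn24 z : ℂ)) • ∑ a, uu24 z a • (K a).map (algebraMap ℚ ℂ) = 0 := by
      rw [← e2]
      simp only [hKC, smul_sub, Finset.sum_sub_distrib]
      abel
    have e4 : ∑ a, uu24 z a • (K a).map (algebraMap ℚ ℂ) = (K 1).map (algebraMap ℚ ℂ) +
        ∑ j : Fin s, (z j : ℂ) • (K j.succ.succ).map (algebraMap ℚ ℂ) := by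
      rw [Fin.sum_univ_succ, Fin.sum_univ_succ]
      have e5 : uu24 z (Fin.succ 0) = 1 := rfl
      have e6 : K (Fin.succ 0) = K 1 := rfl
      rw [uu24_zero, zero_smul, zero_add, e5, one_smul, e6]
      congr 1
    rw [e4] at e3
    have e7 := congrArg (fun X => (nn24 z : ℂ) • X) e3
    simp only [smul_add, smul_smul, smul_zero] at e7
    rw [mul_div_cancel₀ _ hzC] at e7
    rw [← e7, Finset.smul_sum, ← add_assoc, ← add_smul]
    congr 1
    · push_cast
      rfl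
    · exact Finset.sum_congr rfl fun j _ => by rw [smul_smul]
  have h2 : ∀ x y, K 1 x y = 0 ∧ ∀ j : Fin s, K j.succ.succ x y = 0 := by
    intro x y
    have e1 := congrFun (congrFun h1 x) y
    rw [Matrix.add_apply, Matrix.smul_apply, Matrix.map_apply, Matrix.sum_apply] at e1
    simp only [Matrix.smul_apply, Matrix.map_apply, smul_eq_mul, Matrix.zero_apply] at e1
    have e2 : ((K 1 x y : ℚ) : ℝ) * (1 + ∑ j, z j * z j) + ∑ j, ((2 * K j.succ.succ x y : ℚ) : ℝ) * z j = 0 := by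
      have e3 : (((K 1 x y : ℚ) : ℝ) * (1 + ∑ j, z j * z j) + ∑ j, ((2 * K j.succ.succ x y : ℚ) : ℝ) * z j : ℝ) =
          (nn24 z + 2) * (K 1 x y : ℝ) + ∑ j, (2 * z j) * (K j.succ.succ x y : ℝ) := by
        unfold nn24
        congr 1
        · ring
        · refine Finset.sum_congr rfl fun j _ => ?_
          push_cast
          ring
      rw [e3]
      have e4 : (((nn24 z + 2) * (K 1 x y : ℝ) + ∑ j, (2 * z j) * (K j.succ.succ x y : ℝ) : ℝ) : ℂ) = 0 := by
        rw [← e1]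
        push_cast
        rfl
      exact_mod_cast e4
    obtain ⟨e5, e6⟩ := hg _ _ e2
    refine ⟨e5, fun j => ?_⟩
    have e7 := e6 j
    have e8 : (2 : ℚ) ≠ 0 := by norm_num
    exact (mul_eq_zero.1 e7).resolve_left e8
  refine scalar24 (q := qv24 s ℚ) (by omega) (by norm_num) ?_ ?_
  · intro a h
    have h3 := qv24_sq (R := ℚ) s a
    rw [h] at h3
    norm_num at h3
  · intro d hd
    have h3 : K d = 0 := by
      ext x y
      rw [Matrix.zero_apply]
      revert hd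
      refine Fin.cases ?_ (fun b => ?_) d
      · intro h4
        exact absurd rfl h4
      · intro _
        refine Fin.cases ?_ (fun j => ?_) b
        · exact (h2 x y).1
        · exact (h2 x y).2 j
    exact sub_eq_zero.1 h3

end main

/-- **The second exterior power of a generic Hodge structure of K3 type**: Hodge numbers `s, h, s` with
`2 h + s = s² + 2`, only scalar endomorphisms, and a Mumford-Tate group smaller than the special orthogonal group. -/
theorem sharp_K3_24 (s h : ℕ) (hs : 3 ≤ s) (hh : 2 * h + s = s ^ 2 + 2) :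
    ∃ (n : Type) (_ : Fintype n) (_ : DecidableEq n) (Q : Matrix n n ℚ) (P : ℤ → Matrix n n ℂ),
      IsHW 2 Q {0, 1, 2} P ∧
      (∀ A : Matrix n n ℚ, (∀ p, toC A * P p = P p * toC A) → ∃ c : ℚ, A = c • (1 : Matrix n n ℚ)) ∧
      (P 2).rank = s ∧ (P 1).rank = h ∧ (P 0).rank = s ∧ (∀ p, p ≠ 2 → p ≠ 1 → p ≠ 0 → P p = 0) ∧
      ∃ g : GL n ℂ, (g : Matrix n n ℂ)ᵀ * toC Q * (g : Matrix n n ℂ) = toC Q ∧ (g : Matrix n n ℂ).det = 1 ∧
        g ∉ MT {0, 1, 2} P := by
  obtain ⟨z, hg, hz1⟩ := exists_z24 s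
  have hz : nn24 z ≠ 0 := by
    intro h1
    apply hz1
    unfold nn24 at h1
    linarith
  have hset : ({2, 1, 0} : Finset ℤ) = {0, 1, 2} := by decide
  have hcard : Fintype.card (Pr24 (s + 2)) = 2 * s + h := by
    have h1 := card_Pr24 (s + 2)
    nlinarith
  have H : IsHW 2 (Q24 s) {2, 1, 0} (PH24 (HH24 z)) :=
    isHW_PH24 (HH24_cube hz) (HH24_conj z) (Q24_symm s) (HH24_skew hz) (HH24_pos hz)
  have hr := PH24_ranks (HH24_cube hz) (HH24_trace hz) (s := s) (h := h) (HH24_trace_sq hz) hcard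
  obtain ⟨g, g1, g2, g3⟩ := exists_g24 hs
  refine ⟨Pr24 (s + 2), inferInstance, inferInstance, Q24 s, PH24 (HH24 z), hset ▸ H, ?_, hr.1, hr.2, ?_, ?_, g, g1, g2,
    ?_⟩
  · intro A hA
    exact HH24_end hs hz hg (PH24_comm hA)
  · have hPP : ∀ p, PH24 (HH24 z) p * PH24 (HH24 z) p = PH24 (HH24 z) p := fun p => by rw [H.mul, if_pos rfl]
    have e1 := trace_eq_rank (hPP 0)
    rw [PH24_zero, Matrix.trace_smul, Matrix.trace_sub, HH24_trace hz, HH24_trace_sq hz, sub_zero, smul_eq_mul,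
      ← PH24_zero] at e1
    have e2 : ((PH24 (HH24 z) 0).rank : ℂ) = (s : ℂ) := by
      rw [← e1]
      ring
    exact_mod_cast e2
  · intro p p2 p1 p0
    exact PH24_ne _ p2 p1 p0
  · intro hgM
    apply g3
    refine hgM 2 2 (tt24 (s + 2) ℚ) ?_
    have h1 := (PH24_idm (HH24_cube hz)).inv_iff 2 2 (tC (tt24 (s + 2) ℚ))
    have h2 : dL 2 2 (tC (tt24 (s + 2) ℚ)) (∑ p ∈ ({2, 1, 0} : Finset ℤ), (p : ℂ) • PH24 (HH24 z) p) = 0 := by
      rw [PH24_grade, map_add, tC_tt24, dL_tt24_one, HH24_eq hz, dL_tt24, add_zero]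
    have h3 := h1.2 h2
    rw [hset] at h3
    exact h3

end MH
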