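import Mathlib

/-!
Project PGN (MP_b8862a_ag): matrices on the second exterior power.
-/

set_option linter.unusedSectionVars false

open Matrix
open scoped Kronecker

namespace MH

/-- pairs of indices -/
abbrev Pr24 (k : ℕ) : Type := {p : Fin k × Fin k // p.1 < p.2}

section lam

variable {k : ℕ} {R : Type*} [CommRing R]

/-- the sum over all pairs -/
theorem sum_pairs24 {M : Type*} [AddCommMonoid M] (F : Fin k → Fin k → M) :
    ∑ a, ∑ b, F a b = ∑ a, F a a + ∑ z : Pr24 k, (F z.1.1 z.1.2 + F z.1.2 z.1.1) := by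
  rw [← Fintype.sum_prod_type']
  have h1 : ∀ p : Fin k × Fin k, F p.1 p.2 = (if p.1 = p.2 then F p.1 p.2 else 0) +
      ((if p.1 < p.2 then F p.1 p.2 else 0) + (if p.2 < p.1 then F p.1 p.2 else 0)) := by
    intro p
    rcases lt_trichotomy p.1 p.2 with h | h | h
    · rw [if_neg h.ne, if_pos h, if_neg h.asymm, zero_add, add_zero]
    · rw [if_pos h, if_neg (by rw [h]; exact lt_irrefl _), if_neg (by rw [h]; exact lt_irrefl _), add_zero, add_zero]
    · rw [if_neg h.ne', if_neg h.asymm, if_pos h, zero_add, zero_add]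
  rw [Finset.sum_congr rfl fun p _ => h1 p, Finset.sum_add_distrib, Finset.sum_add_distrib]
  congr 1
  · rw [Fintype.sum_prod_type]
    refine Finset.sum_congr rfl fun a _ => ?_
    simp
  · rw [Finset.sum_add_distrib]
    have h2 : ∀ G : Fin k → Fin k → M, ∑ p : Fin k × Fin k, (if p.1 < p.2 then G p.1 p.2 else 0) =
        ∑ z : Pr24 k, G z.1.1 z.1.2 := by
      intro G
      rw [← Finset.sum_filter]
      exact (Finset.sum_subtype _ (fun x => by simp) (fun p : Fin k × Fin k => G p.1 p.2))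
    congr 1
    · exact h2 F
    · rw [← h2 (fun a b => F b a)]
      exact (Equiv.prodComm (Fin k) (Fin k)).sum_comp
        (fun p : Fin k × Fin k => if p.1 < p.2 then F p.2 p.1 else 0)

/-- the compression of a matrix on the tensor square to the exterior square -/
def cc24 (T : Matrix (Fin k × Fin k) (Fin k × Fin k) R) : Matrix (Pr24 k) (Pr24 k) R :=
  fun x y => T (x.1.1, x.1.2) (y.1.1, y.1.2) - T (x.1.1, x.1.2) (y.1.2, y.1.1)

/-- commuting with the exchange of the factors -/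
def Sw24 (T : Matrix (Fin k × Fin k) (Fin k × Fin k) R) : Prop :=
  ∀ a b i j, T (b, a) (j, i) = T (a, b) (i, j)

theorem cc24_mul (T T' : Matrix (Fin k × Fin k) (Fin k × Fin k) R) (h : Sw24 T') :
    cc24 T * cc24 T' = cc24 (T * T') := by
  ext x y
  have e1 : cc24 (T * T') x y = ∑ a, ∑ b, T (x.1.1, x.1.2) (a, b) *
      (T' (a, b) (y.1.1, y.1.2) - T' (a, b) (y.1.2, y.1.1)) := by
    unfold cc24
    rw [Matrix.mul_apply, Matrix.mul_apply, Fintype.sum_prod_type, Fintype.sum_prod_type, ← Finset.sum_sub_distrib]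
    refine Finset.sum_congr rfl fun a _ => ?_
    rw [← Finset.sum_sub_distrib]
    exact Finset.sum_congr rfl fun b _ => by rw [mul_sub]
  rw [e1, sum_pairs24, Matrix.mul_apply]
  have e2 : ∑ a, T (x.1.1, x.1.2) (a, a) * (T' (a, a) (y.1.1, y.1.2) - T' (a, a) (y.1.2, y.1.1)) = 0 := by
    refine Finset.sum_eq_zero fun a _ => ?_
    rw [h a a y.1.1 y.1.2, sub_self, mul_zero]
  rw [e2, zero_add]
  refine Finset.sum_congr rfl fun z _ => ?_
  unfold cc24
  rw [h z.1.1 z.1.2 y.1.2 y.1.1, h z.1.1 z.1.2 y.1.1 y.1.2]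
  ring

theorem cc24_add (T T' : Matrix (Fin k × Fin k) (Fin k × Fin k) R) : cc24 (T + T') = cc24 T + cc24 T' := by
  ext x y
  simp only [cc24, Matrix.add_apply]
  ring

theorem cc24_smul (c : R) (T : Matrix (Fin k × Fin k) (Fin k × Fin k) R) : cc24 (c • T) = c • cc24 T := by
  ext x y
  simp only [cc24, Matrix.smul_apply, smul_eq_mul]
  ring

theorem cc24_sub (T T' : Matrix (Fin k × Fin k) (Fin k × Fin k) R) : cc24 (T - T') = cc24 T - cc24 T' := by
  ext x y
  simp only [cc24, Matrix.sub_apply]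
  ring

/-- the action of the group -/
def rho24 (M : Matrix (Fin k) (Fin k) R) : Matrix (Pr24 k) (Pr24 k) R := cc24 (M ⊗ₖ M)

/-- the action of the Lie algebra -/
def dr24 (X : Matrix (Fin k) (Fin k) R) : Matrix (Pr24 k) (Pr24 k) R := cc24 (X ⊗ₖ 1 + 1 ⊗ₖ X)

theorem sw_rho24 (M : Matrix (Fin k) (Fin k) R) : Sw24 (M ⊗ₖ M) := by
  intro a b i j
  simp only [Matrix.kroneckerMap_apply]
  ring

theorem sw_dr24 (X : Matrix (Fin k) (Fin k) R) : Sw24 (X ⊗ₖ 1 + 1 ⊗ₖ X) := by
  intro a b i j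
  simp only [Matrix.kroneckerMap_apply, Matrix.add_apply]
  ring

theorem rho24_apply (M : Matrix (Fin k) (Fin k) R) (x y : Pr24 k) :
    rho24 M x y = M x.1.1 y.1.1 * M x.1.2 y.1.2 - M x.1.1 y.1.2 * M x.1.2 y.1.1 := rfl

theorem dr24_apply (X : Matrix (Fin k) (Fin k) R) (x y : Pr24 k) :
    dr24 X x y = (X x.1.1 y.1.1 * (1 : Matrix (Fin k) (Fin k) R) x.1.2 y.1.2 +
      (1 : Matrix (Fin k) (Fin k) R) x.1.1 y.1.1 * X x.1.2 y.1.2) -
      (X x.1.1 y.1.2 * (1 : Matrix (Fin k) (Fin k) R) x.1.2 y.1.1 +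
        (1 : Matrix (Fin k) (Fin k) R) x.1.1 y.1.2 * X x.1.2 y.1.1) := rfl

theorem rho24_mul (M N : Matrix (Fin k) (Fin k) R) : rho24 M * rho24 N = rho24 (M * N) := by
  unfold rho24
  rw [cc24_mul _ _ (sw_rho24 N), Matrix.mul_kronecker_mul]

theorem rho24_one : rho24 (1 : Matrix (Fin k) (Fin k) R) = 1 := by
  ext x y
  rw [rho24_apply]
  have hx := x.2
  have hy := y.2
  by_cases h : x = y
  · subst h
    have h1 : x.1.1 ≠ x.1.2 := ne_of_lt hx
    simp [Matrix.one_apply, h1]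
  · rw [Matrix.one_apply_ne h]
    have h2 : ¬ (x.1.1 = y.1.1 ∧ x.1.2 = y.1.2) := fun h3 => h (Subtype.ext (Prod.ext h3.1 h3.2))
    have h4 : ¬ (x.1.1 = y.1.2 ∧ x.1.2 = y.1.1) := by
      rintro ⟨h5, h6⟩
      rw [h5, h6] at hx
      exact absurd hx (not_lt.2 hy.le)
    simp only [Matrix.one_apply, mul_ite, mul_one, mul_zero]
    rw [← ite_and, ← ite_and, if_neg (fun h5 => h2 ⟨h5.2, h5.1⟩), if_neg (fun h5 => h4 ⟨h5.2, h5.1⟩), sub_self]

theorem rho24_transpose (M : Matrix (Fin k) (Fin k) R) : (rho24 M)ᵀ = rho24 Mᵀ := by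
  ext x y
  simp only [Matrix.transpose_apply, rho24_apply]
  ring

theorem dr24_add (X Y : Matrix (Fin k) (Fin k) R) : dr24 (X + Y) = dr24 X + dr24 Y := by
  ext x y
  simp only [dr24_apply, Matrix.add_apply]
  ring

theorem dr24_sub (X Y : Matrix (Fin k) (Fin k) R) : dr24 (X - Y) = dr24 X - dr24 Y := by
  ext x y
  simp only [dr24_apply, Matrix.sub_apply]
  ring

theorem dr24_smul (c : R) (X : Matrix (Fin k) (Fin k) R) : dr24 (c • X) = c • dr24 X := by
  ext x y
  simp only [dr24_apply, Matrix.smul_apply, smul_eq_mul]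
  ring

theorem dr24_transpose (X : Matrix (Fin k) (Fin k) R) : (dr24 X)ᵀ = dr24 Xᵀ := by
  ext x y
  simp only [Matrix.transpose_apply, dr24_apply, Matrix.one_apply, eq_comm]
  ring

/-- the group acts on the Lie algebra -/
theorem rho24_conj {M N : Matrix (Fin k) (Fin k) R} (h : M * N = 1) (X : Matrix (Fin k) (Fin k) R) :
    rho24 M * dr24 X * rho24 N = dr24 (M * X * N) := by
  unfold rho24 dr24
  rw [cc24_mul _ _ (sw_dr24 X), cc24_mul _ _ (sw_rho24 N), mul_add, add_mul, ← Matrix.mul_kronecker_mul,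
    ← Matrix.mul_kronecker_mul, ← Matrix.mul_kronecker_mul, ← Matrix.mul_kronecker_mul, mul_one, h]

/-- brackets -/
theorem dr24_bracket (X Y : Matrix (Fin k) (Fin k) R) :
    dr24 X * dr24 Y - dr24 Y * dr24 X = dr24 (X * Y - Y * X) := by
  unfold dr24
  rw [cc24_mul _ _ (sw_dr24 Y), cc24_mul _ _ (sw_dr24 X), ← cc24_sub]
  congr 1
  simp only [mul_add, add_mul, ← Matrix.mul_kronecker_mul, mul_one, one_mul]
  ext p q
  simp only [Matrix.kroneckerMap_apply, Matrix.add_apply, Matrix.sub_apply]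
  ring

/-- squares -/
theorem dr24_sq (X : Matrix (Fin k) (Fin k) R) : dr24 X * dr24 X = dr24 (X * X) + (2 : R) • rho24 X := by
  unfold dr24 rho24
  rw [cc24_mul _ _ (sw_dr24 X), ← cc24_smul, ← cc24_add]
  congr 1
  simp only [mul_add, add_mul, ← Matrix.mul_kronecker_mul, mul_one, one_mul]
  rw [two_smul]
  abel

theorem rho24_map {R' : Type*} [CommRing R'] (f : R →+* R') (M : Matrix (Fin k) (Fin k) R) :
    (rho24 M).map f = rho24 (M.map f) := by
  ext x y
  simp only [Matrix.map_apply, rho24_apply, map_sub, map_mul]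

theorem dr24_map {R' : Type*} [CommRing R'] (f : R →+* R') (X : Matrix (Fin k) (Fin k) R) :
    (dr24 X).map f = dr24 (X.map f) := by
  ext x y
  simp only [Matrix.map_apply, dr24_apply, map_sub, map_mul, map_add, Matrix.one_apply]
  split_ifs <;> simp

theorem rho24_smul (c : R) (M : Matrix (Fin k) (Fin k) R) : rho24 (c • M) = (c * c) • rho24 M := by
  ext x y
  simp only [rho24_apply, Matrix.smul_apply, smul_eq_mul]
  ring

theorem rho24_diagonal (d : Fin k → R) : rho24 (diagonal d) = diagonal (fun x : Pr24 k => d x.1.1 * d x.1.2) := by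
  ext x y
  rw [rho24_apply]
  have hx := x.2
  have hy := y.2
  by_cases h : x = y
  · subst h
    have h1 : x.1.1 ≠ x.1.2 := ne_of_lt hx
    simp [h1]
  · rw [Matrix.diagonal_apply_ne _ h]
    have h2 : diagonal d x.1.1 y.1.1 * diagonal d x.1.2 y.1.2 = 0 := by
      by_cases h3 : x.1.1 = y.1.1
      · have h4 : x.1.2 ≠ y.1.2 := fun h5 => h (Subtype.ext (Prod.ext h3 h5))
        rw [Matrix.diagonal_apply_ne _ h4, mul_zero]
      · rw [Matrix.diagonal_apply_ne _ h3, zero_mul]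
    have h3 : diagonal d x.1.1 y.1.2 * diagonal d x.1.2 y.1.1 = 0 := by
      by_cases h4 : x.1.1 = y.1.2
      · have h5 : x.1.2 ≠ y.1.1 := by
          intro h6
          rw [h4, h6] at hx
          exact absurd hx (not_lt.2 hy.le)
        rw [Matrix.diagonal_apply_ne _ h5, mul_zero]
      · rw [Matrix.diagonal_apply_ne _ h4, zero_mul]
    rw [h2, h3, sub_zero]

theorem dr24_diagonal (d : Fin k → R) : dr24 (diagonal d) = diagonal (fun x : Pr24 k => d x.1.1 + d x.1.2) := by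
  ext x y
  rw [dr24_apply]
  have hx := x.2
  have hy := y.2
  by_cases h : x = y
  · subst h
    have h1 : x.1.1 ≠ x.1.2 := ne_of_lt hx
    simp [h1]
  · rw [Matrix.diagonal_apply_ne _ h]
    have h2 : ¬ (x.1.1 = y.1.1 ∧ x.1.2 = y.1.2) := fun h3 => h (Subtype.ext (Prod.ext h3.1 h3.2))
    have h4 : ¬ (x.1.1 = y.1.2 ∧ x.1.2 = y.1.1) := by
      rintro ⟨h5, h6⟩
      rw [h5, h6] at hx
      exact absurd hx (not_lt.2 hy.le)
    by_cases h5 : x.1.1 = y.1.1
    · have h6 : x.1.2 ≠ y.1.2 := fun h7 => h2 ⟨h5, h7⟩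
      by_cases h7 : x.1.1 = y.1.2
      · exact absurd (h5.symm.trans h7) (ne_of_lt hy)
      · rw [Matrix.diagonal_apply_ne _ h6, Matrix.diagonal_apply_ne _ h7, Matrix.one_apply_ne h6,
          Matrix.one_apply_ne h7]
        ring
    · by_cases h7 : x.1.1 = y.1.2
      · have h8 : x.1.2 ≠ y.1.1 := fun h9 => h4 ⟨h7, h9⟩
        rw [Matrix.diagonal_apply_ne _ h5, Matrix.diagonal_apply_ne _ h8, Matrix.one_apply_ne h5,
          Matrix.one_apply_ne h8]
        ring
      · rw [Matrix.diagonal_apply_ne _ h5, Matrix.diagonal_apply_ne _ h7, Matrix.one_apply_ne h5,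
          Matrix.one_apply_ne h7]
        ring

/-- skew matrices go to skew matrices -/
theorem dr24_skew {X q : Matrix (Fin k) (Fin k) R} (h : Xᵀ * q = -(q * X)) :
    (dr24 X)ᵀ * rho24 q = -(rho24 q * dr24 X) := by
  have e1 : dr24 Xᵀ * rho24 q = cc24 ((Xᵀ * q) ⊗ₖ q + q ⊗ₖ (Xᵀ * q)) := by
    unfold dr24 rho24
    rw [cc24_mul _ _ (sw_rho24 q), add_mul, ← Matrix.mul_kronecker_mul, ← Matrix.mul_kronecker_mul, one_mul]
  have e2 : rho24 q * dr24 X = cc24 ((q * X) ⊗ₖ q + q ⊗ₖ (q * X)) := by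
    unfold dr24 rho24
    rw [cc24_mul _ _ (sw_dr24 X), mul_add, ← Matrix.mul_kronecker_mul, ← Matrix.mul_kronecker_mul, mul_one]
  rw [dr24_transpose, e1, e2, h]
  ext x y
  simp only [cc24, Matrix.add_apply, Matrix.kroneckerMap_apply, Matrix.neg_apply]
  ring

end lam

end MH
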