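import Mathlib

/-!
Project PGN (MP_b8862a_ag): a generic point.
-/

open Polynomial

namespace MH

theorem exists_z24 (s : ℕ) : ∃ z : Fin s → ℝ,
    (∀ (c0 : ℚ) (c : Fin s → ℚ), (c0 : ℝ) * (1 + ∑ j, z j * z j) + ∑ j, (c j : ℝ) * z j = 0 → c0 = 0 ∧ ∀ j, c j = 0) ∧
    ∑ j, z j * z j ≠ 1 := by
  have ht : Transcendental ℚ (liouvilleNumber 2) := by
    have h1 : Transcendental ℤ (liouvilleNumber 2) := transcendental_liouvilleNumber (m := 2) le_rfl
    intro h2
    exact h1 ((IsFractionRing.isAlgebraic_iff ℤ ℚ ℝ).2 h2)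
  rw [transcendental_iff] at ht
  refine ⟨fun j => liouvilleNumber 2 ^ ((j : ℕ) + 1), ?_, ?_⟩
  · intro c0 c h
    set G : ℚ[X] := C c0 * (1 + ∑ j : Fin s, X ^ ((j : ℕ) + 1) * X ^ ((j : ℕ) + 1)) +
      ∑ j : Fin s, C (c j) * X ^ ((j : ℕ) + 1) with hG
    have h1 : aeval (liouvilleNumber 2) G = 0 := by
      rw [hG]
      simp only [map_add, map_mul, aeval_C, map_one, map_sum, map_pow, aeval_X, eq_ratCast]
      exact h
    have h2 := ht G h1
    have h3 : c0 = 0 := by
      have h4 : G.eval 0 = c0 := by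
        rw [hG]
        simp [eval_finset_sum]
      rw [← h4, h2, eval_zero]
    refine ⟨h3, fun i => ?_⟩
    have h5 : G.coeff ((i : ℕ) + 1) = c i := by
      rw [hG, h3]
      simp only [C_0, zero_mul, zero_add, finset_sum_coeff, coeff_C_mul, coeff_X_pow]
      rw [Finset.sum_eq_single i]
      · simp
      · intro j _ hj
        rw [if_neg, mul_zero]
        intro h6
        exact hj (Fin.ext (by omega))
      · intro h6
        exact absurd (Finset.mem_univ _) h6
    rw [← h5, h2, coeff_zero]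
  · intro h
    set G : ℚ[X] := (∑ j : Fin s, X ^ ((j : ℕ) + 1) * X ^ ((j : ℕ) + 1)) - 1 with hG
    have h1 : aeval (liouvilleNumber 2) G = 0 := by
      rw [hG]
      simp only [map_sub, map_mul, map_one, map_sum, map_pow, aeval_X]
      rw [h, sub_self]
    have h2 := ht G h1
    have h4 : G.eval 0 = -1 := by
      rw [hG]
      simp [eval_finset_sum]
    rw [h2, eval_zero] at h4
    norm_num at h4

end MH
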