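import Pool.Agent.Helper24.PGN.Ten
import Pool.Agent.Helper24.PGN.Zed

/-!
Project PGN (MP_b8862a_ag): Hodge structures `Λ² T (1)`, `T` of K3 type.
-/

set_option linter.unusedSectionVars false

open Matrix

namespace MH

/-! ### an isometry that does not fix the tensor -/

section notmem

variable {s : ℕ}

private theorem lt24 (hs : 3 ≤ s) {i j : ℕ} (hij : i < j) (hj : j < 5) :
    (⟨i, by omega⟩ : Fin (s + 2)) < ⟨j, by omega⟩ := by
  rw [Fin.lt_def]
  exact hij

/-- the pair of two small indices -/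
private def pr24 (hs : 3 ≤ s) (i j : ℕ) (hij : i < j) (hj : j < 5) : Pr24 (s + 2) :=
  ⟨(⟨i, by omega⟩, ⟨j, by omega⟩), lt24 hs hij hj⟩

private theorem pr_ne24 (hs : 3 ≤ s) {i j i' j' : ℕ} (hij : i < j) (hj : j < 5) (hij' : i' < j') (hj' : j' < 5)
    (h : ¬ (i = i' ∧ j = j')) : pr24 hs i j hij hj ≠ pr24 hs i' j' hij' hj' := by
  intro h1
  have h2 := congrArg (fun x : Pr24 (s + 2) => ((x.1.1 : ℕ), (x.1.2 : ℕ))) h1
  simp only [pr24, Prod.mk.injEq] at h2
  exact h h2

/-- the signs -/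
private noncomputable def ep24 (hs : 3 ≤ s) (x : Pr24 (s + 2)) : ℂ :=
  (if x = pr24 hs 0 1 (by omega) (by omega) then -1 else 1) * (if x = pr24 hs 2 3 (by omega) (by omega) then -1 else 1)

private theorem ep_sq24 (hs : 3 ≤ s) (x : Pr24 (s + 2)) : ep24 hs x * ep24 hs x = 1 := by
  unfold ep24
  split_ifs <;> norm_num

private theorem ep_prod24 (hs : 3 ≤ s) : ∏ x, ep24 hs x = 1 := by
  unfold ep24
  rw [Finset.prod_mul_distrib, Finset.prod_eq_single (pr24 hs 0 1 (by omega) (by omega)),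
    Finset.prod_eq_single (pr24 hs 2 3 (by omega) (by omega))]
  · rw [if_pos rfl, if_pos rfl]
    norm_num
  · intro x _ hx
    rw [if_neg hx]
  · intro h
    exact absurd (Finset.mem_univ _) h
  · intro x _ hx
    rw [if_neg hx]
  · intro h
    exact absurd (Finset.mem_univ _) h

/-- a diagonal isometry of determinant one that does not fix the tensor -/
theorem exists_g24 (hs : 3 ≤ s) : ∃ g : GL (Pr24 (s + 2)) ℂ,
    (g : Matrix (Pr24 (s + 2)) (Pr24 (s + 2)) ℂ)ᵀ * toC (Q24 s) * (g : Matrix (Pr24 (s + 2)) (Pr24 (s + 2)) ℂ) =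
      toC (Q24 s) ∧
    (g : Matrix (Pr24 (s + 2)) (Pr24 (s + 2)) ℂ).det = 1 ∧
    actF (slot 2 2 (g : Matrix (Pr24 (s + 2)) (Pr24 (s + 2)) ℂ)
      ((g⁻¹ : GL (Pr24 (s + 2)) ℂ) : Matrix (Pr24 (s + 2)) (Pr24 (s + 2)) ℂ)) (tC (tt24 (s + 2) ℚ)) ≠
      tC (tt24 (s + 2) ℚ) := by
  have hdd : diagonal (ep24 hs) * diagonal (ep24 hs) = 1 := by
    rw [Matrix.diagonal_mul_diagonal, ← Matrix.diagonal_one]
    congr 1
    funext x
    exact ep_sq24 hs x
  refine ⟨⟨diagonal (ep24 hs), diagonal (ep24 hs), hdd, hdd⟩, ?_, ?_, ?_⟩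
  · change (diagonal (ep24 hs))ᵀ * toC (Q24 s) * diagonal (ep24 hs) = toC (Q24 s)
    rw [toC_Q24, rho24_diagonal, Matrix.diagonal_transpose, Matrix.diagonal_mul_diagonal, Matrix.diagonal_mul_diagonal]
    congr 1
    funext x
    linear_combination (qv24 s ℂ x.1.1 * qv24 s ℂ x.1.2) * ep_sq24 hs x
  · change (diagonal (ep24 hs)).det = 1
    rw [Matrix.det_diagonal, ep_prod24]
  · change actF (slot 2 2 (diagonal (ep24 hs)) (diagonal (ep24 hs))) (tC (tt24 (s + 2) ℚ)) ≠ tC (tt24 (s + 2) ℚ)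
    rw [tC_tt24]
    intro h
    set x := pr24 hs 0 1 (by omega) (by omega) with hx
    set y := pr24 hs 1 2 (by omega) (by omega) with hy
    set u := pr24 hs 2 4 (by omega) (by omega) with hu
    set v := pr24 hs 0 4 (by omega) (by omega) with hv
    have h1 := congrFun h (Sum.elim ![x, u] ![y, v])
    have h2 : actF (slot 2 2 (diagonal (ep24 hs)) (diagonal (ep24 hs))) (tt24 (s + 2) ℂ) (Sum.elim ![x, u] ![y, v]) =
        (ep24 hs x * ep24 hs y) * (ep24 hs u * ep24 hs v) * tt24 (s + 2) ℂ (Sum.elim ![x, u] ![y, v]) := by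
      unfold tt24
      rw [actF_sum, Finset.sum_apply, Finset.sum_apply, Finset.mul_sum]
      refine Finset.sum_congr rfl fun a _ => ?_
      rw [actF_sum, Finset.sum_apply, Finset.sum_apply, Finset.mul_sum]
      refine Finset.sum_congr rfl fun b _ => ?_
      unfold bb24
      rw [slot22]
      simp only [t22, Sum.elim_inl, Sum.elim_inr, Matrix.cons_val_zero, Matrix.cons_val_one, Matrix.mul_diagonal,
        Matrix.diagonal_mul]
      ring
    have h3 : (ep24 hs x * ep24 hs y) * (ep24 hs u * ep24 hs v) = -1 := by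
      have n1 : x ≠ pr24 hs 2 3 (by omega) (by omega) := pr_ne24 hs _ _ _ _ (by omega)
      have n2 : y ≠ pr24 hs 0 1 (by omega) (by omega) := pr_ne24 hs _ _ _ _ (by omega)
      have n3 : y ≠ pr24 hs 2 3 (by omega) (by omega) := pr_ne24 hs _ _ _ _ (by omega)
      have n4 : u ≠ pr24 hs 0 1 (by omega) (by omega) := pr_ne24 hs _ _ _ _ (by omega)
      have n5 : u ≠ pr24 hs 2 3 (by omega) (by omega) := pr_ne24 hs _ _ _ _ (by omega)
      have n6 : v ≠ pr24 hs 0 1 (by omega) (by omega) := pr_ne24 hs _ _ _ _ (by omega)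
      have n7 : v ≠ pr24 hs 2 3 (by omega) (by omega) := pr_ne24 hs _ _ _ _ (by omega)
      unfold ep24
      rw [if_pos hx, if_neg n1, if_neg n2, if_neg n3, if_neg n4, if_neg n5, if_neg n6, if_neg n7]
      norm_num
    have h4 : tt24 (s + 2) ℂ (Sum.elim ![x, u] ![y, v]) = -1 := by
      unfold tt24
      have e1 : ∀ a b : Fin (s + 2), bb24 (Matrix.single a b (1 : ℂ)) (Matrix.single b a (1 : ℂ))
          (Sum.elim ![x, u] ![y, v]) = -(if a = x.1.1 then (if b = y.1.2 then 1 else 0) else 0) := by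
        intro a b
        have q1 : y.1.1 = x.1.2 := rfl
        have q2 : u.1.1 = y.1.2 := rfl
        have q3 : v.1.1 = x.1.1 := rfl
        have q4 : v.1.2 = u.1.2 := rfl
        have r1 : x.1.1 ≠ x.1.2 := ne_of_lt x.2
        have r2 : x.1.2 ≠ y.1.2 := ne_of_lt y.2
        have r3 : x.1.1 ≠ y.1.2 := ne_of_lt (x.2.trans y.2)
        have r4 : y.1.2 ≠ u.1.2 := ne_of_lt u.2
        have r5 : x.1.1 ≠ u.1.2 := ne_of_lt v.2
        have p1 : dr24 (Matrix.single a b (1 : ℂ)) x y = -(if a = x.1.1 then (if b = y.1.2 then 1 else 0) else 0) := by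
          rw [dr24_apply, q1, Matrix.one_apply_ne r1, Matrix.one_apply_ne r3, Matrix.one_apply_ne r2,
            Matrix.one_apply_eq, mul_zero, zero_mul, zero_mul, mul_one, add_zero, add_zero, zero_sub,
            Matrix.single_apply, ite_and]
        have p2 : dr24 (Matrix.single b a (1 : ℂ)) u v = (if a = x.1.1 then (if b = y.1.2 then 1 else 0) else 0) := by
          rw [dr24_apply, q2, q3, q4, Matrix.one_apply_ne (Ne.symm r3), Matrix.one_apply_ne r4,
            Matrix.one_apply_ne (Ne.symm r5), Matrix.one_apply_eq, mul_zero, zero_mul, zero_mul, mul_one, add_zero,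
            add_zero, sub_zero, Matrix.single_apply, ite_and]
          by_cases s1 : a = x.1.1 <;> by_cases s2 : b = y.1.2 <;> simp [s1, s2]
        unfold bb24
        simp only [t22, Sum.elim_inl, Sum.elim_inr, Matrix.cons_val_zero, Matrix.cons_val_one]
        rw [p1, p2]
        split_ifs <;> norm_num
      rw [Finset.sum_apply, Finset.sum_eq_single x.1.1]
      · rw [Finset.sum_apply, Finset.sum_eq_single y.1.2]
        · rw [e1, if_pos rfl, if_pos rfl]
        · intro b _ hb
          rw [e1, if_pos rfl, if_neg hb, neg_zero]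
        · intro h5
          exact absurd (Finset.mem_univ _) h5
      · intro a _ ha
        rw [Finset.sum_apply]
        refine Finset.sum_eq_zero fun b _ => ?_
        rw [e1, if_neg ha, neg_zero]
      · intro h5
        exact absurd (Finset.mem_univ _) h5
    rw [h2, h3, h4] at h1
    norm_num at h1

end notmem

end MH
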