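import Pool.Agent.Helper24.PGN.Com
import Pool.Agent.Helper24.PGN.Fam

/-!
Project PGN (MP_b8862a_ag): the second exterior power of a Hodge structure of K3 type.
-/

set_option linter.unusedSectionVars false

open Matrix
open scoped Kronecker

namespace MH

section form

variable {R : Type*} [CommRing R] {k : ℕ}

theorem w24_eq (q v u : Fin k → R) : w24 q v u = (vecMulVec v u - vecMulVec u v) * diagonal q := by
  ext a b
  rw [Matrix.mul_diagonal]
  rfl

theorem w24_skew (q v u : Fin k → R) : (w24 q v u)ᵀ * diagonal q = -(diagonal q * w24 q v u) := by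
  rw [w24_eq, Matrix.transpose_mul, Matrix.transpose_sub, Matrix.transpose_vecMulVec, Matrix.transpose_vecMulVec,
    Matrix.diagonal_transpose, ← mul_assoc, ← neg_mul, ← mul_neg, neg_sub]

theorem w24_add (q v u u' : Fin k → R) : w24 q v (u + u') = w24 q v u + w24 q v u' := by
  ext a b
  simp only [w24, Pi.add_apply, Matrix.add_apply]
  ring

theorem w24_smul (q v u : Fin k → R) (c : R) : w24 q v (c • u) = c • w24 q v u := by
  ext a b
  simp only [w24, Pi.smul_apply, Matrix.smul_apply, smul_eq_mul]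
  ring

theorem w24_self (q v : Fin k → R) : w24 q v v = 0 := by
  ext a b
  simp only [w24, Matrix.zero_apply]
  ring

theorem w24_expand (q v u : Fin k → R) : w24 q v u = ∑ a, u a • w24 q v (Pi.single a 1) := by
  ext a b
  rw [Matrix.sum_apply]
  simp only [w24, Matrix.smul_apply, smul_eq_mul, Pi.single_apply]
  have e1 : ∀ x : Fin k, u x * ((v a * (if b = x then 1 else 0) - (if a = x then 1 else 0) * v b) * q b) =
      (if b = x then v a * u x * q b else 0) - (if a = x then u x * v b * q b else 0) := by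
    intro x
    split_ifs <;> ring
  rw [Finset.sum_congr rfl fun x _ => e1 x, Finset.sum_sub_distrib]
  simp only [Finset.sum_ite_eq, Finset.mem_univ, if_true]
  ring

theorem w24_map {R' : Type*} [CommRing R'] (f : R →+* R') (q v u : Fin k → R) :
    (w24 q v u).map f = w24 (fun a => f (q a)) (fun a => f (v a)) (fun a => f (u a)) := by
  ext a b
  simp only [w24, Matrix.map_apply, map_mul, map_sub]

/-- the form with the signature `(s, 2)` -/
def qv24 (s : ℕ) (R : Type*) [CommRing R] : Fin (s + 2) → R := fun a => if (a : ℕ) < 2 then -1 else 1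

theorem qv24_sq (s : ℕ) (a : Fin (s + 2)) : qv24 s R a * qv24 s R a = 1 := by
  unfold qv24
  split_ifs <;> ring

theorem qv24_zero (s : ℕ) : qv24 s R 0 = -1 := by
  unfold qv24
  rw [if_pos (by simp)]

theorem qv24_one (s : ℕ) : qv24 s R 1 = -1 := by
  unfold qv24
  rw [if_pos (by simp)]

theorem qv24_map (s : ℕ) {R' : Type*} [CommRing R'] (f : R →+* R') (a : Fin (s + 2)) :
    f (qv24 s R a) = qv24 s R' a := by
  unfold qv24
  split_ifs <;> simp

end form

/-! ### the reflection -/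

section refl

variable {F : Type*} [Field F] {k : ℕ}

/-- a reflection -/
def rf24 (q u : Fin k → F) (c : F) : Matrix (Fin k) (Fin k) F :=
  fun a b => (1 : Matrix (Fin k) (Fin k) F) a b - c * (u a * (q b * u b))

theorem rf24_sq {q u : Fin k → F} {c : F} (hc : c * ∑ a, q a * u a * u a = 2) : rf24 q u c * rf24 q u c = 1 := by
  ext a b
  rw [Matrix.mul_apply]
  have e1 : ∀ x, rf24 q u c a x * rf24 q u c x b =
      (1 : Matrix (Fin k) (Fin k) F) a x * (1 : Matrix (Fin k) (Fin k) F) x b -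
        (1 : Matrix (Fin k) (Fin k) F) a x * (c * (u x * (q b * u b))) -
        (c * (u a * (q x * u x))) * (1 : Matrix (Fin k) (Fin k) F) x b +
        (c * u a * q b * u b) * (c * (q x * u x * u x)) := by
    intro x
    simp only [rf24]
    ring
  rw [Finset.sum_congr rfl fun x _ => e1 x, Finset.sum_add_distrib, Finset.sum_sub_distrib, Finset.sum_sub_distrib,
    ← Matrix.mul_apply, one_mul, ← Finset.mul_sum, ← Finset.mul_sum, hc]
  simp only [Matrix.one_apply, ite_mul, one_mul, zero_mul, mul_ite, mul_one, mul_zero, Finset.sum_ite_eq,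
    Finset.sum_ite_eq', Finset.mem_univ, if_true]
  ring

theorem rf24_form (q u : Fin k → F) (c : F) : (rf24 q u c)ᵀ * diagonal q = diagonal q * rf24 q u c := by
  ext a b
  rw [Matrix.mul_diagonal, Matrix.diagonal_mul, Matrix.transpose_apply]
  simp only [rf24, Matrix.one_apply]
  by_cases h : a = b
  · subst h
    ring
  · rw [if_neg h, if_neg (Ne.symm h)]
    ring

theorem rf24_conj {q u : Fin k → F} {c : F} (v w : Fin k → F) :
    rf24 q u c * w24 q v w * rf24 q u c = w24 q (rf24 q u c *ᵥ v) (rf24 q u c *ᵥ w) := by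
  rw [w24_eq, w24_eq, mul_assoc, mul_assoc, ← rf24_form, ← mul_assoc (vecMulVec v w - vecMulVec w v), ← mul_assoc,
    ← mul_assoc, mul_sub, sub_mul]
  congr 2
  · rw [Matrix.mul_vecMulVec, Matrix.vecMulVec_mul, Matrix.vecMul_transpose]
  · rw [Matrix.mul_vecMulVec, Matrix.vecMulVec_mul, Matrix.vecMul_transpose]

end refl

/-! ### the standard structure -/

section std

variable (s : ℕ)

/-- the polarisation -/
def Q24 : Matrix (Pr24 (s + 2)) (Pr24 (s + 2)) ℚ := rho24 (diagonal (qv24 s ℚ))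

theorem Q24_symm : (Q24 s)ᵀ = Q24 s := by
  unfold Q24
  rw [rho24_transpose, Matrix.diagonal_transpose]

theorem toC_Q24 : toC (Q24 s) = rho24 (diagonal (qv24 s ℂ)) := by
  have e1 : toC (Q24 s) = (Q24 s).map (algebraMap ℚ ℂ) := rfl
  rw [e1]
  unfold Q24
  rw [rho24_map]
  congr 1
  ext a b
  rw [Matrix.map_apply]
  by_cases h : a = b
  · subst h
    rw [Matrix.diagonal_apply_eq, Matrix.diagonal_apply_eq]
    exact qv24_map s (algebraMap ℚ ℂ) a
  · rw [Matrix.diagonal_apply_ne _ h, Matrix.diagonal_apply_ne _ h, map_zero]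

/-- the generator of the standard plane -/
def j24 (R : Type*) [CommRing R] : Matrix (Fin (s + 2)) (Fin (s + 2)) R :=
  w24 (qv24 s R) (Pi.single 0 1) (Pi.single 1 1)

theorem j24_apply (R : Type*) [CommRing R] (a b : Fin (s + 2)) :
    j24 s R a b = (if (a : ℕ) = 1 ∧ (b : ℕ) = 0 then 1 else 0) - (if (a : ℕ) = 0 ∧ (b : ℕ) = 1 then 1 else 0) := by
  have h0 : ∀ x : Fin (s + 2), x = 0 ↔ (x : ℕ) = 0 := fun x => by rw [Fin.ext_iff]; rfl
  have h1 : ∀ x : Fin (s + 2), x = 1 ↔ (x : ℕ) = 1 := fun x => by rw [Fin.ext_iff]; rfl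
  unfold j24 w24 qv24
  simp only [Pi.single_apply, h0, h1]
  by_cases a0 : (a : ℕ) = 0
  · by_cases b1 : (b : ℕ) = 1
    · simp [a0, b1]
    · simp [a0, b1]
  · by_cases a1 : (a : ℕ) = 1
    · by_cases b0 : (b : ℕ) = 0
      · simp [a1, b0]
      · simp [a1, b0]
    · simp [a0, a1]

/-- the standard operator -/
noncomputable def H024 : Matrix (Pr24 (s + 2)) (Pr24 (s + 2)) ℂ := dr24 (Complex.I • j24 s ℂ)

/-- the support of the square of the standard operator -/
def dl24 (x : Pr24 (s + 2)) : ℂ := if (x.1.1 : ℕ) < 2 ∧ 2 ≤ (x.1.2 : ℕ) then 1 else 0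

theorem j24_sq : j24 s ℂ * j24 s ℂ = -diagonal (fun a : Fin (s + 2) => if (a : ℕ) < 2 then (1 : ℂ) else 0) := by
  ext a b
  rw [Matrix.mul_apply, Matrix.neg_apply]
  simp only [j24_apply]
  rw [Fin.sum_univ_succ, Fin.sum_univ_succ]
  have e1 : ∀ x : Fin s, ((if (a : ℕ) = 1 ∧ (x.succ.succ : ℕ) = 0 then (1 : ℂ) else 0) -
      (if (a : ℕ) = 0 ∧ (x.succ.succ : ℕ) = 1 then 1 else 0)) *
      ((if (x.succ.succ : ℕ) = 1 ∧ (b : ℕ) = 0 then 1 else 0) - (if (x.succ.succ : ℕ) = 0 ∧ (b : ℕ) = 1 then 1 else 0)) =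
      0 := by
    intro x
    have h1 : (x.succ.succ : ℕ) ≠ 0 := by simp
    have h2 : (x.succ.succ : ℕ) ≠ 1 := by simp
    simp [h1, h2]
  rw [Finset.sum_eq_zero fun x _ => e1 x, add_zero]
  have h0 : ((0 : Fin (s + 2)) : ℕ) = 0 := rfl
  have h1 : ((Fin.succ (0 : Fin (s + 1)) : Fin (s + 2)) : ℕ) = 1 := rfl
  rw [h0, h1]
  by_cases hab : a = b
  · subst hab
    rw [Matrix.diagonal_apply_eq]
    by_cases a0 : (a : ℕ) = 0
    · simp [a0]
    · by_cases a1 : (a : ℕ) = 1
      · simp [a1]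
      · have a2 : ¬ (a : ℕ) < 2 := by omega
        simp [a0, a1, a2]
  · rw [Matrix.diagonal_apply_ne _ hab]
    have hab' : (a : ℕ) ≠ b := fun h => hab (Fin.ext h)
    by_cases a0 : (a : ℕ) = 0
    · have b0 : (b : ℕ) ≠ 0 := by omega
      simp [a0, b0]
    · by_cases a1 : (a : ℕ) = 1
      · have b1 : (b : ℕ) ≠ 1 := by omega
        simp [a1, b1]
      · simp [a0, a1]

theorem rho24_j24 : rho24 (j24 s ℂ) = diagonal (fun x : Pr24 (s + 2) => if (x.1.2 : ℕ) = 1 then (1 : ℂ) else 0) := by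
  ext x y
  rw [rho24_apply]
  simp only [j24_apply]
  have hx : (x.1.1 : ℕ) < x.1.2 := x.2
  have hy : (y.1.1 : ℕ) < y.1.2 := y.2
  by_cases hxy : x = y
  · subst hxy
    rw [Matrix.diagonal_apply_eq]
    by_cases h1 : (x.1.2 : ℕ) = 1
    · have h0 : (x.1.1 : ℕ) = 0 := by omega
      simp [h1, h0]
    · have h2 : (x.1.2 : ℕ) ≠ 0 := by omega
      simp [h1, h2]
  · rw [Matrix.diagonal_apply_ne _ hxy]
    by_cases h1 : (x.1.2 : ℕ) = 1
    · have h0 : (x.1.1 : ℕ) = 0 := by omega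
      have h3 : ¬ ((y.1.1 : ℕ) = 0 ∧ (y.1.2 : ℕ) = 1) := by
        rintro ⟨h4, h5⟩
        exact hxy (Subtype.ext (Prod.ext (Fin.ext (by omega)) (Fin.ext (by omega))))
      have h4 : ¬ ((y.1.2 : ℕ) = 0) := by omega
      simp only [h1, h0]
      by_cases h5 : (y.1.1 : ℕ) = 0
      · have h6 : (y.1.2 : ℕ) ≠ 1 := fun h7 => h3 ⟨h5, h7⟩
        simp [h6, h4]
      · simp [h5, h4]
    · have h2 : (x.1.2 : ℕ) ≠ 0 := by omega
      simp [h1, h2]

theorem H024_sq : H024 s * H024 s = diagonal (dl24 s) := by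
  unfold H024
  rw [dr24_sq, rho24_smul, smul_mul_smul_comm, j24_sq, rho24_j24, Complex.I_mul_I, smul_neg, neg_smul, one_smul,
    neg_neg, dr24_diagonal, neg_smul, one_smul, smul_neg, ← sub_eq_add_neg]
  ext x y
  rw [Matrix.sub_apply, Matrix.smul_apply]
  by_cases hxy : x = y
  · subst hxy
    rw [Matrix.diagonal_apply_eq, Matrix.diagonal_apply_eq, Matrix.diagonal_apply_eq]
    unfold dl24
    have hx : (x.1.1 : ℕ) < x.1.2 := x.2
    by_cases h1 : (x.1.2 : ℕ) = 1
    · have h0 : (x.1.1 : ℕ) = 0 := by omega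
      simp [h1, h0]
      norm_num
    · by_cases h2 : (x.1.1 : ℕ) < 2
      · have h3 : 2 ≤ (x.1.2 : ℕ) := by omega
        have h4 : ¬ (x.1.2 : ℕ) < 2 := by omega
        simp [h1, h2, h3, h4]
      · have h4 : ¬ (x.1.2 : ℕ) < 2 := by omega
        simp [h1, h2, h4]
  · rw [Matrix.diagonal_apply_ne _ hxy, Matrix.diagonal_apply_ne _ hxy, Matrix.diagonal_apply_ne _ hxy, smul_zero,
      sub_zero]

theorem H024_cube : H024 s * H024 s * H024 s = H024 s := by
  rw [H024_sq]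
  ext x y
  rw [Matrix.diagonal_mul]
  unfold dl24
  split_ifs with h
  · rw [one_mul]
  rw [zero_mul]
  unfold H024
  rw [dr24_smul, Matrix.smul_apply, dr24_apply]
  simp only [j24_apply]
  have hx : (x.1.1 : ℕ) < x.1.2 := x.2
  have hy : (y.1.1 : ℕ) < y.1.2 := y.2
  by_cases h2 : (x.1.1 : ℕ) < 2
  · have h3 : (x.1.2 : ℕ) = 1 := by omega
    have h4 : (x.1.1 : ℕ) = 0 := by omega
    have h5 : x.1.1 = 0 := Fin.ext h4
    have h6 : x.1.2 = 1 := Fin.ext h3
    simp only [h3, h4]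
    rw [h5, h6]
    simp only [Matrix.one_apply, Fin.ext_iff]
    have e0 : ((0 : Fin (s + 2)) : ℕ) = 0 := rfl
    have e1 : ((1 : Fin (s + 2)) : ℕ) = 1 := rfl
    rw [e0, e1]
    by_cases y0 : (y.1.1 : ℕ) = 0
    · have y2 : (y.1.2 : ℕ) ≠ 0 := by omega
      simp [y0, y2]
      tauto
    · by_cases y1 : (y.1.1 : ℕ) = 1
      · have y2 : (y.1.2 : ℕ) ≠ 1 := by omega
        have y3 : (y.1.2 : ℕ) ≠ 0 := by omega
        simp [y1, y2, y3, Ne.symm y2]
      · have y3 : (y.1.2 : ℕ) ≠ 0 := by omega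
        have y4 : (y.1.2 : ℕ) ≠ 1 := by omega
        simp [y0, y1, y3, y4]
  · have h3 : (x.1.1 : ℕ) ≠ 0 := by omega
    have h4 : (x.1.1 : ℕ) ≠ 1 := by omega
    have h5 : (x.1.2 : ℕ) ≠ 0 := by omega
    have h6 : (x.1.2 : ℕ) ≠ 1 := by omega
    simp [h3, h4, h5, h6]

theorem Q24_H024 : toC (Q24 s) * (1 - (2 : ℂ) • (H024 s * H024 s)) = 1 := by
  rw [toC_Q24, rho24_diagonal, H024_sq]
  ext x y
  rw [Matrix.diagonal_mul, Matrix.sub_apply, Matrix.smul_apply]
  by_cases hxy : x = y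
  · subst hxy
    rw [Matrix.diagonal_apply_eq, Matrix.one_apply_eq]
    unfold dl24 qv24
    have hx : (x.1.1 : ℕ) < x.1.2 := x.2
    by_cases h1 : (x.1.1 : ℕ) < 2
    · by_cases h2 : (x.1.2 : ℕ) < 2
      · simp [h1, h2, not_le.2 h2]
      · simp [h1, h2, not_lt.1 h2]
        norm_num
    · have h2 : ¬ (x.1.2 : ℕ) < 2 := by omega
      simp [h1, h2]
  · rw [Matrix.diagonal_apply_ne _ hxy, Matrix.one_apply_ne hxy, smul_zero, sub_zero, mul_zero]

/-- the sum of the support -/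
theorem sum_dl24 : ∑ x, dl24 s x = 2 * s := by
  have e1 : ∀ x : Pr24 (s + 2), dl24 s x = ((if (x.1.1 : ℕ) < 2 then (1 : ℂ) else 0) +
      (if (x.1.2 : ℕ) < 2 then (1 : ℂ) else 0)) - 2 * (if (x.1.2 : ℕ) = 1 then (1 : ℂ) else 0) := by
    intro x
    unfold dl24
    have hx : (x.1.1 : ℕ) < x.1.2 := x.2
    by_cases h1 : (x.1.2 : ℕ) = 1
    · have h0 : (x.1.1 : ℕ) = 0 := by omega
      simp [h1, h0]
      norm_num
    · by_cases h2 : (x.1.1 : ℕ) < 2
      · have h3 : 2 ≤ (x.1.2 : ℕ) := by omega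
        have h4 : ¬ (x.1.2 : ℕ) < 2 := by omega
        simp [h1, h2, h3, h4]
      · have h4 : ¬ (x.1.2 : ℕ) < 2 := by omega
        simp [h1, h2, h4]
  have e2 := sum_pairs24 (k := s + 2) (fun a _ => if (a : ℕ) < 2 then (1 : ℂ) else 0)
  have e3 : ∑ a : Fin (s + 2), (if (a : ℕ) < 2 then (1 : ℂ) else 0) = 2 := by
    rw [Fin.sum_univ_succ, Fin.sum_univ_succ]
    simp
    norm_num
  simp only [Finset.sum_const, Finset.card_univ, Fintype.card_fin] at e2
  rw [← Finset.smul_sum, e3] at e2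
  have e4 : ∑ x : Pr24 (s + 2), (if (x.1.2 : ℕ) = 1 then (1 : ℂ) else 0) = 1 := by
    have h01 : (0 : Fin (s + 2)) < 1 := by
      rw [Fin.lt_def]
      exact Nat.zero_lt_one
    rw [Finset.sum_eq_single (⟨(0, 1), h01⟩ : Pr24 (s + 2))]
    · exact if_pos rfl
    · intro x _ hx
      rw [if_neg]
      intro h1
      have h2 : (x.1.1 : ℕ) < x.1.2 := x.2
      exact hx (Subtype.ext (Prod.ext (Fin.ext (by rw [h1] at h2; exact Nat.lt_one_iff.1 h2)) (Fin.ext h1)))
    · intro h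
      exact absurd (Finset.mem_univ _) h
  rw [Finset.sum_congr rfl fun x _ => e1 x, Finset.sum_sub_distrib, ← Finset.mul_sum, e4]
  have e5 : ∑ z : Pr24 (s + 2), ((if (z.1.1 : ℕ) < 2 then (1 : ℂ) else 0) + (if (z.1.2 : ℕ) < 2 then (1 : ℂ) else 0)) =
      (s + 2 : ℕ) • (2 : ℂ) - 2 := by
    rw [e2]
    ring
  rw [e5, nsmul_eq_mul]
  push_cast
  ring

theorem card_Pr24 (k : ℕ) : k * k = k + 2 * Fintype.card (Pr24 k) := by
  have e1 := sum_pairs24 (k := k) (fun _ _ => (1 : ℕ))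
  simp only [Finset.sum_const, Finset.card_univ, Fintype.card_fin, smul_eq_mul, mul_one] at e1
  rw [e1]
  ring

end std

end MH
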