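import Pool.Agent.Helper24.PGN.Mod

/-!
Project PGN (MP_b8862a_ag): the Hodge tensor of the second exterior power.
-/

set_option linter.unusedSectionVars false

open Matrix

namespace MH

section ten

variable {k : ℕ} {R : Type*} [CommRing R]

/-- the tensor of two matrices, in the exterior square -/
def bb24 (X Y : Matrix (Fin k) (Fin k) R) : (Fin 2 ⊕ Fin 2 → Pr24 k) → R := t22 (dr24 X) (dr24 Y)

/-- the tensor of the exterior square -/
def tt24 (k : ℕ) (R : Type*) [CommRing R] : (Fin 2 ⊕ Fin 2 → Pr24 k) → R :=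
  ∑ a : Fin k, ∑ b : Fin k, bb24 (Matrix.single a b (1 : R)) (Matrix.single b a (1 : R))

theorem bb24_sub_left (X X' Y : Matrix (Fin k) (Fin k) R) : bb24 (X - X') Y = bb24 X Y - bb24 X' Y := by
  funext i
  simp only [bb24, t22, dr24_sub, Matrix.sub_apply, Pi.sub_apply]
  ring

theorem bb24_sub_right (X Y Y' : Matrix (Fin k) (Fin k) R) : bb24 X (Y - Y') = bb24 X Y - bb24 X Y' := by
  funext i
  simp only [bb24, t22, dr24_sub, Matrix.sub_apply, Pi.sub_apply]
  ring

theorem bb24_zero_left (Y : Matrix (Fin k) (Fin k) R) : bb24 0 Y = 0 := by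
  have h := bb24_sub_left (0 : Matrix (Fin k) (Fin k) R) 0 Y
  rwa [sub_zero, sub_self] at h

theorem bb24_zero_right (X : Matrix (Fin k) (Fin k) R) : bb24 X 0 = 0 := by
  have h := bb24_sub_right X (0 : Matrix (Fin k) (Fin k) R) 0
  rwa [sub_zero, sub_self] at h

theorem dL_tt24 (X : Matrix (Fin k) (Fin k) R) : dL 2 2 (tt24 k R) (dr24 X) = 0 := by
  have h0 : ∀ t : (Fin 2 ⊕ Fin 2 → Pr24 k) → R, ∀ Z, dL 2 2 t Z =
      AddMonoidHom.mk' (fun t => dact (lslot 2 2 Z) t) (fun t u => dact_add_right (lslot 2 2 Z) t u) t := by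
    intro t Z
    rw [dL_apply]
    rfl
  have h1 : ∀ Z : Matrix (Pr24 k) (Pr24 k) R, dL 2 2 (tt24 k R) Z = ∑ a : Fin k, ∑ b : Fin k,
      dL 2 2 (bb24 (Matrix.single a b (1 : R)) (Matrix.single b a (1 : R))) Z := by
    intro Z
    rw [h0, tt24, map_sum]
    refine Finset.sum_congr rfl fun a _ => ?_
    rw [map_sum]
    refine Finset.sum_congr rfl fun b _ => ?_
    rw [h0]
  have h2 : ∀ c d : Fin k, dL 2 2 (tt24 k R) (dr24 (Matrix.single c d (1 : R))) = 0 := by
    intro c d
    rw [h1]
    have e1 : ∀ a b : Fin k, dL 2 2 (bb24 (Matrix.single a b (1 : R)) (Matrix.single b a (1 : R)))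
        (dr24 (Matrix.single c d (1 : R))) =
        ((if d = a then bb24 (Matrix.single c b (1 : R)) (Matrix.single b a 1) else 0) -
          (if b = c then bb24 (Matrix.single a d (1 : R)) (Matrix.single b a 1) else 0)) +
        ((if d = b then bb24 (Matrix.single a b (1 : R)) (Matrix.single c a 1) else 0) -
          (if a = c then bb24 (Matrix.single a b (1 : R)) (Matrix.single b d 1) else 0)) := by
      intro a b
      have f1 : ∀ x y z t : Fin k, Matrix.single x y (1 : R) * Matrix.single z t (1 : R) =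
          if y = z then Matrix.single x t (1 : R) else 0 := by
        intro x y z t
        split_ifs with h
        · subst h
          rw [Matrix.single_mul_single_same, mul_one]
        · exact Matrix.single_mul_single_of_ne _ _ _ _ h _
      unfold bb24
      rw [dL_t22, dr24_bracket, dr24_bracket, f1, f1, f1, f1]
      change bb24 _ _ + bb24 _ _ = _
      rw [bb24_sub_left, bb24_sub_right]
      congr 1
      · congr 1
        · split_ifs
          · rfl
          · exact bb24_zero_left _
        · split_ifs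
          · rfl
          · exact bb24_zero_left _
      · congr 1
        · split_ifs
          · rfl
          · exact bb24_zero_right _
        · split_ifs
          · rfl
          · exact bb24_zero_right _
    simp only [e1, Finset.sum_add_distrib, Finset.sum_sub_distrib]
    have g1 : ∑ a : Fin k, ∑ b : Fin k, (if d = a then bb24 (Matrix.single c b (1 : R)) (Matrix.single b a 1) else 0) =
        ∑ b : Fin k, bb24 (Matrix.single c b (1 : R)) (Matrix.single b d 1) := by
      rw [Finset.sum_comm]
      refine Finset.sum_congr rfl fun b _ => ?_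
      rw [Finset.sum_ite_eq, if_pos (Finset.mem_univ _)]
    have g2 : ∑ a : Fin k, ∑ b : Fin k, (if b = c then bb24 (Matrix.single a d (1 : R)) (Matrix.single b a 1) else 0) =
        ∑ a : Fin k, bb24 (Matrix.single a d (1 : R)) (Matrix.single c a 1) := by
      refine Finset.sum_congr rfl fun a _ => ?_
      rw [Finset.sum_ite_eq', if_pos (Finset.mem_univ _)]
    have g3 : ∑ a : Fin k, ∑ b : Fin k, (if d = b then bb24 (Matrix.single a b (1 : R)) (Matrix.single c a 1) else 0) =
        ∑ a : Fin k, bb24 (Matrix.single a d (1 : R)) (Matrix.single c a 1) := by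
      refine Finset.sum_congr rfl fun a _ => ?_
      rw [Finset.sum_ite_eq, if_pos (Finset.mem_univ _)]
    have g4 : ∑ a : Fin k, ∑ b : Fin k, (if a = c then bb24 (Matrix.single a b (1 : R)) (Matrix.single b d 1) else 0) =
        ∑ b : Fin k, bb24 (Matrix.single c b (1 : R)) (Matrix.single b d 1) := by
      rw [Finset.sum_comm]
      refine Finset.sum_congr rfl fun b _ => ?_
      rw [Finset.sum_ite_eq', if_pos (Finset.mem_univ _)]
    rw [g1, g2, g3, g4]
    abel
  have h3 : dr24 X = ∑ c : Fin k, ∑ d : Fin k, X c d • dr24 (Matrix.single c d (1 : R)) := by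
    ext x y
    rw [Matrix.sum_apply]
    have e1 : ∀ M : Matrix (Fin k) (Fin k) R, ∀ a b, M a b = ∑ c : Fin k, ∑ d : Fin k,
        M c d * Matrix.single c d (1 : R) a b := by
      intro M a b
      rw [Finset.sum_eq_single a]
      · rw [Finset.sum_eq_single b]
        · simp
        · intro d _ hd
          simp [hd]
        · intro h
          exact absurd (Finset.mem_univ _) h
      · intro c _ hc
        refine Finset.sum_eq_zero fun d _ => ?_
        simp [hc]
      · intro h
        exact absurd (Finset.mem_univ _) h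
    rw [dr24_apply]
    conv_lhs => rw [e1 X x.1.1 y.1.1, e1 X x.1.2 y.1.2, e1 X x.1.1 y.1.2, e1 X x.1.2 y.1.1]
    simp only [Finset.sum_mul, Finset.mul_sum, ← Finset.sum_add_distrib, ← Finset.sum_sub_distrib, Matrix.sum_apply,
      Matrix.smul_apply, dr24_apply, smul_eq_mul]
    refine Finset.sum_congr rfl fun c _ => Finset.sum_congr rfl fun d _ => ?_
    ring
  rw [h3, map_sum]
  refine Finset.sum_eq_zero fun c _ => ?_
  rw [map_sum]
  refine Finset.sum_eq_zero fun d _ => ?_
  rw [map_smul, h2, smul_zero]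

theorem dL_tt24_one : dL 2 2 (tt24 k R) (1 : Matrix (Pr24 k) (Pr24 k) R) = 0 := by
  have h0 : ∀ t : (Fin 2 ⊕ Fin 2 → Pr24 k) → R, ∀ Z, dL 2 2 t Z =
      AddMonoidHom.mk' (fun t => dact (lslot 2 2 Z) t) (fun t u => dact_add_right (lslot 2 2 Z) t u) t := by
    intro t Z
    rw [dL_apply]
    rfl
  rw [h0, tt24, map_sum]
  refine Finset.sum_eq_zero fun a _ => ?_
  rw [map_sum]
  refine Finset.sum_eq_zero fun b _ => ?_
  rw [← h0]
  unfold bb24
  rw [dL_t22, one_mul, mul_one, sub_self, one_mul, mul_one, sub_self]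
  funext i
  simp [t22]

end ten

theorem tC_tt24 (k : ℕ) : tC (tt24 k ℚ) = tt24 k ℂ := by
  funext i
  unfold tC tt24
  rw [Finset.sum_apply, Finset.sum_apply, map_sum]
  refine Finset.sum_congr rfl fun a _ => ?_
  rw [Finset.sum_apply, Finset.sum_apply, map_sum]
  refine Finset.sum_congr rfl fun b _ => ?_
  have e1 : ∀ (c d : Fin k) (x y : Pr24 k), algebraMap ℚ ℂ (dr24 (Matrix.single c d (1 : ℚ)) x y) =
      dr24 (Matrix.single c d (1 : ℂ)) x y := by
    intro c d x y
    have e2 := congrFun (congrFun (dr24_map (algebraMap ℚ ℂ) (Matrix.single c d (1 : ℚ))) x) y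
    rw [Matrix.map_apply] at e2
    rw [e2]
    congr 2
    ext u v
    rw [Matrix.map_apply, Matrix.single_apply, Matrix.single_apply]
    split_ifs <;> simp
  unfold bb24 t22
  rw [map_mul, e1, e1]

end MH
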